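import Pool.Agent.MP_1c2b6e_al.Defs

/-! Bases of the profinite group of a punctured sphere: universal property and first facts. -/

namespace Pool.Agent.MP_1c2b6e_al

variable {G : Type} [Group G] [TopologicalSpace G] [IsTopologicalGroup G] [CompactSpace G]
  [TotallyDisconnectedSpace G] {n : ℕ}

/-- `G` is the profinite group with generators `l i` and the relation `l 0 * ... * l (n-1) = 1`. -/
structure IsBasis (l : Fin n → G) : Prop where
  prod : (List.ofFn l).prod = 1
  dense : ∀ H : Subgroup G, IsClosed (H : Set G) → (∀ i, l i ∈ H) → H = ⊤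
  lift : ∀ (P : Type) [Group P] [TopologicalSpace P] [IsTopologicalGroup P] [CompactSpace P]
    [TotallyDisconnectedSpace P] (q : Fin n → P), (List.ofFn q).prod = 1 →
    ∃ h : G →* P, Continuous h ∧ ∀ i, h (l i) = q i

/-- Hint: `ProfiniteGrp.ProfiniteCompletion.lift`, `lift_eta`, `denseRange`,
`PresentedGroup.toGroup`, `PresentedGroup.closure_range_of`, `ProfiniteGrp.of P`. -/
theorem isBasis_gen (n : ℕ) : IsBasis (gen n) := by
  let η : Surf n →* SurfHat n := (ProfiniteGrp.ProfiniteCompletion.eta (GrpCat.of (Surf n))).hom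
  have hη : ∀ i, gen n i = η (PresentedGroup.of i) := fun i => rfl
  refine ⟨?_, fun H hH h => ?_, fun P _ _ _ _ _ q hq => ?_⟩
  · have h1 : List.ofFn (gen n) =
        (List.ofFn (FreeGroup.of : Fin n → FreeGroup (Fin n))).map
          (η.comp (PresentedGroup.mk _)) := by
      rw [List.map_ofFn]
      rfl
    rw [h1, ← map_list_prod, MonoidHom.comp_apply, PresentedGroup.one_of_mem (Set.mem_singleton _),
      map_one]
  · have h1 : ∀ x, η x ∈ H := fun x =>
      PresentedGroup.generated_by _ (H.comap η) (fun i => h i) x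
    rw [eq_top_iff]
    intro x _
    have h2 := ProfiniteGrp.ProfiniteCompletion.denseRange (GrpCat.of (Surf n)) x
    exact hH.closure_subset_iff.2 (by rintro _ ⟨y, rfl⟩; exact h1 y) h2
  · have h1 : ∀ w ∈ ({(List.ofFn (FreeGroup.of : Fin n → FreeGroup (Fin n))).prod} :
        Set (FreeGroup (Fin n))), FreeGroup.lift q w = 1 := by
      rintro _ rfl
      rw [map_list_prod, List.map_ofFn, ← hq]
      congr 2
      funext i
      simp
    let f : GrpCat.of (Surf n) ⟶ GrpCat.of (ProfiniteGrp.of P) :=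
      GrpCat.ofHom (PresentedGroup.toGroup h1)
    let F := ProfiniteGrp.ProfiniteCompletion.lift f
    refine ⟨F.hom.toMonoidHom, F.hom.continuous_toFun, fun i => ?_⟩
    have h2 := CategoryTheory.ConcreteCategory.congr_hom
      (ProfiniteGrp.ProfiniteCompletion.lift_eta f) (PresentedGroup.of i)
    exact h2.trans (PresentedGroup.toGroup.of h1)

theorem IsBasis.map {H : Type} [Group H] [TopologicalSpace H] [IsTopologicalGroup H]
    [CompactSpace H] [TotallyDisconnectedSpace H] {l : Fin n → G} (hl : IsBasis l)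
    (e : G ≃ₜ* H) : IsBasis (fun i => e (l i)) := by
  refine ⟨?_, fun K hK h => ?_, fun P _ _ _ _ _ q hq => ?_⟩
  · have h1 : List.ofFn (fun i => e (l i)) = (List.ofFn l).map e.toMulEquiv.toMonoidHom := by
      rw [List.map_ofFn]
      rfl
    rw [h1, ← map_list_prod, hl.prod, map_one]
  · have h1 := hl.dense (K.comap e.toMulEquiv.toMonoidHom) (hK.preimage e.continuous_toFun) h
    rw [eq_top_iff]
    intro x _
    have h2 : e.symm x ∈ K.comap e.toMulEquiv.toMonoidHom := h1 ▸ Subgroup.mem_top _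
    have h3 : e (e.symm x) ∈ K := h2
    rwa [e.apply_symm_apply] at h3
  · obtain ⟨h, hc, h1⟩ := hl.lift P q hq
    refine ⟨h.comp e.symm.toMulEquiv.toMonoidHom, hc.comp e.continuous_invFun, fun i => ?_⟩
    change h (e.symm (e (l i))) = q i
    rw [e.symm_apply_apply, h1 i]

variable {l : Fin n → G}

theorem IsBasis.lift_fin (hl : IsBasis l) {Q : Type} [Group Q] [Finite Q] (q : Fin n → Q)
    (hq : (List.ofFn q).prod = 1) :
    ∃ h : G →* Q, IsOpen (h.ker : Set G) ∧ ∀ i, h (l i) = q i := by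
  let _ : TopologicalSpace Q := ⊥
  have : DiscreteTopology Q := ⟨rfl⟩
  have : IsTopologicalGroup Q := {}
  obtain ⟨h, hc, h1⟩ := hl.lift Q q hq
  exact ⟨h, (isOpen_discrete ({1} : Set Q)).preimage hc, h1⟩

theorem IsBasis.ext (hl : IsBasis l) {H : Type} [Group H] [TopologicalSpace H] [T2Space H]
    {f g : G →* H} (hf : Continuous f) (hg : Continuous g) (h : ∀ i, f (l i) = g (l i)) :
    f = g := by
  have h1 := hl.dense (f.eqLocus g) (isClosed_eq hf hg) h
  ext x
  have h2 : x ∈ f.eqLocus g := h1 ▸ Subgroup.mem_top _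
  exact h2

theorem IsBasis.ext_fin (hl : IsBasis l) {Q : Type} [Group Q] {f g : G →* Q}
    (hf : IsOpen (f.ker : Set G)) (hg : IsOpen (g.ker : Set G)) (h : ∀ i, f (l i) = g (l i)) :
    f = g := by
  have h0 : IsOpen ((f.eqLocus g : Subgroup G) : Set G) := by
    refine Subgroup.isOpen_mono (H₁ := f.ker ⊓ g.ker) (fun x hx => ?_) (hf.inter hg)
    exact (MonoidHom.mem_ker.1 hx.1).trans (MonoidHom.mem_ker.1 hx.2).symm
  have h1 := hl.dense (f.eqLocus g) (Subgroup.isClosed_of_isOpen _ h0) h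
  ext x
  have h2 : x ∈ f.eqLocus g := h1 ▸ Subgroup.mem_top _
  exact h2

theorem IsBasis.eq_top_of_isOpen (hl : IsBasis l) {H : Subgroup G} (hH : IsOpen (H : Set G))
    (h : ∀ i, l i ∈ H) : H = ⊤ := by
  exact hl.dense H (Subgroup.isClosed_of_isOpen _ hH) h

/-- Two continuous homomorphisms that agree mod `M` on the generators agree mod `M`. -/
theorem IsBasis.pr_ext (hl : IsBasis l) {H : Type} [Group H] [TopologicalSpace H]
    [IsTopologicalGroup H] (M : OpenNormalSubgroup H) {f g : G →* H} (hf : Continuous f)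
    (hg : Continuous g) (h : ∀ i, pr M (f (l i)) = pr M (g (l i))) (x : G) :
    pr M (f x) = pr M (g x) := by
  have h1 := hl.ext_fin (f := (pr M).comp f) (g := (pr M).comp g) ?_ ?_ h
  · exact DFunLike.congr_fun h1 x
  · have : (((pr M).comp f).ker : Set G) = f ⁻¹' (M : Set H) := by
      ext y
      exact pr_eq_one_iff M (f y)
    rw [this]
    exact M.isOpen'.preimage hf
  · have : (((pr M).comp g).ker : Set G) = g ⁻¹' (M : Set H) := by
      ext y
      exact pr_eq_one_iff M (g y)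
    rw [this]
    exact M.isOpen'.preimage hg

/-- The abstract group generated by the basis surjects onto every finite quotient. -/
theorem IsBasis.exists_disc (hl : IsBasis l) (N : OpenNormalSubgroup G) (g : G) :
    ∃ x ∈ Subgroup.closure (Set.range l), pr N x = pr N g := by
  have h1 := hl.eq_top_of_isOpen
    (H := ((Subgroup.closure (Set.range l)).map (pr N)).comap (pr N)) ?_ ?_
  · have h2 : g ∈ ((Subgroup.closure (Set.range l)).map (pr N)).comap (pr N) :=
      h1 ▸ Subgroup.mem_top _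
    exact h2
  · refine Subgroup.isOpen_mono (H₁ := N.toSubgroup) (fun x hx => ?_) N.isOpen'
    rw [Subgroup.mem_comap, (pr_eq_one_iff N x).2 hx]
    exact one_mem _
  · exact fun i => ⟨l i, Subgroup.subset_closure ⟨i, rfl⟩, rfl⟩

/-- A continuous additive character on a subgroup `U`. -/
def IsCh {k : Type} [AddCommGroup k] (U : Subgroup G) (f : G → k) : Prop :=
  (∀ a ∈ U, ∀ b ∈ U, f (a * b) = f a + f b) ∧ ∃ N : OpenNormalSubgroup G, ∀ u ∈ N, u ∈ U ∧ f u = 0

section IsCh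
variable {k : Type} [AddCommGroup k] {U : Subgroup G} {f : G → k}

theorem IsCh.one (hf : IsCh U f) : f 1 = 0 := by
  obtain ⟨N, hN⟩ := hf.2
  exact (hN 1 (one_mem _)).2

theorem IsCh.inv (hf : IsCh U f) {a : G} (ha : a ∈ U) : f a⁻¹ = -f a := by
  have h := hf.1 a ha a⁻¹ (inv_mem ha)
  rw [mul_inv_cancel, hf.one] at h
  exact eq_neg_of_add_eq_zero_right h.symm

theorem IsCh.conj (hf : IsCh U f) {a u : G} (ha : a ∈ U) (hu : u ∈ U) :
    f (u * a * u⁻¹) = f a := by
  rw [hf.1 _ (mul_mem hu ha) _ (inv_mem hu), hf.1 _ hu _ ha, hf.inv hu]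
  abel

theorem IsCh.pow (hf : IsCh U f) {a : G} (ha : a ∈ U) (m : ℕ) : f (a ^ m) = m • f a := by
  induction m with
  | zero => simp [hf.one]
  | succ m ih => rw [pow_succ, hf.1 _ (pow_mem ha m) _ ha, ih, succ_nsmul]

theorem IsCh.sub {f' : G → k} (hf : IsCh U f) (hf' : IsCh U f') :
    IsCh U (fun g => f g - f' g) := by
  obtain ⟨N, hN⟩ := hf.2
  obtain ⟨N', hN'⟩ := hf'.2
  refine ⟨fun a ha b hb => ?_, N ⊓ N', fun u hu => ⟨(hN u hu.1).1, ?_⟩⟩
  · simp only [hf.1 a ha b hb, hf'.1 a ha b hb]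
    abel
  · simp only [(hN u hu.1).2, (hN' u hu.2).2, sub_zero]

theorem IsCh.mono (hf : IsCh U f) {V : Subgroup G} (hV : IsOpen (V : Set G)) (h : V ≤ U) :
    IsCh V f := by
  obtain ⟨N, hN⟩ := hf.2
  obtain ⟨N', hN'⟩ := exists_le_of_isOpen V hV
  exact ⟨fun a ha b hb => hf.1 a (h ha) b (h hb), N ⊓ N',
    fun u hu => ⟨hN' hu.2, (hN u hu.1).2⟩⟩

theorem IsCh.comp (hf : IsCh U f) (φ : MulAut G) (hc : Continuous φ) (hU : ∀ u ∈ U, φ u ∈ U) :
    IsCh U (fun g => f (φ g)) := by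
  obtain ⟨N, hN⟩ := hf.2
  refine ⟨fun a ha b hb => ?_, N ⊓ pre φ.toMonoidHom hc N,
    fun u hu => ⟨(hN u hu.1).1, (hN _ hu.2).2⟩⟩
  simp only [map_mul, hf.1 _ (hU a ha) _ (hU b hb)]

theorem IsCh.eq_of_pr (hf : IsCh U f) : ∃ N : OpenNormalSubgroup G, N.toSubgroup ≤ U ∧
    ∀ a ∈ U, ∀ b, pr N a = pr N b → f a = f b := by
  obtain ⟨N, hN⟩ := hf.2
  refine ⟨N, fun u hu => (hN u hu).1, fun a ha b hab => ?_⟩
  have h1 := hN _ ((pr_eq_iff N a b).1 hab)
  have h2 := hf.1 a ha _ h1.1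
  rw [mul_inv_cancel_left, h1.2, add_zero] at h2
  exact h2.symm

theorem IsCh.map_pw {m : ℕ} [NeZero m] {f : G → ZMod m} (hf : IsCh U f) {a : G} (ha : a ∈ U)
    (c : Zhat) : f (pw a c) = res m c * f a := by
  obtain ⟨N, hNU, hN⟩ := hf.eq_of_pr
  have hn : 0 < Nat.card (G ⧸ N.toSubgroup) := Nat.card_pos
  have : NeZero (m * Nat.card (G ⧸ N.toSubgroup)) :=
    ⟨Nat.mul_ne_zero (NeZero.ne m) hn.ne'⟩
  have h1 := map_pw_fin (pr N) (isOpen_ker_pr N) a c (m * Nat.card (G ⧸ N.toSubgroup))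
    (by rw [mul_comm, pow_mul, pow_card_eq_one', one_pow])
  rw [← map_pow] at h1
  rw [← hN _ (pow_mem ha _) _ h1.symm, hf.pow ha, nsmul_eq_mul,
    ← res_cast (Nat.dvd_mul_right m (Nat.card (G ⧸ N.toSubgroup))) c, ZMod.castHom_apply,
    ZMod.cast_eq_val]

/-- A character of `G` that vanishes on the generators vanishes. -/
theorem IsBasis.ch_eq_zero (hl : IsBasis l) (hf : IsCh ⊤ f) (h : ∀ i, f (l i) = 0) (g : G) :
    f g = 0 := by
  obtain ⟨N, hN⟩ := hf.2
  let K : Subgroup G :=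
    { carrier := {x | f x = 0}
      one_mem' := hf.one
      mul_mem' := fun {a b} ha hb => by
        have := hf.1 a trivial b trivial
        rw [show f a = 0 from ha, show f b = 0 from hb, add_zero] at this
        exact this
      inv_mem' := fun {a} ha => by
        have := hf.inv (a := a) trivial
        rw [show f a = 0 from ha, neg_zero] at this
        exact this }
  have h1 := hl.eq_top_of_isOpen (H := K)
    (Subgroup.isOpen_mono (H₁ := N.toSubgroup) (fun x hx => (hN x hx).2) N.isOpen') h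
  have h2 : g ∈ K := h1 ▸ Subgroup.mem_top _
  exact h2

end IsCh

end Pool.Agent.MP_1c2b6e_al

/-! Characters, centralisers, characteristic subgroups, cluster points. -/

namespace Pool.Agent.MP_1c2b6e_al

variable {G : Type} [Group G] [TopologicalSpace G] [IsTopologicalGroup G] [CompactSpace G]
  [TotallyDisconnectedSpace G] {n : ℕ} {l : Fin n → G}

theorem IsBasis.exists_ch (hl : IsBasis l) {m : ℕ} [NeZero m] (v : Fin n → ZMod m)
    (hv : ∑ i, v i = 0) : ∃ f : G → ZMod m, IsCh ⊤ f ∧ ∀ i, f (l i) = v i := by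
  obtain ⟨h, ho, hq⟩ := hl.lift_fin (fun i => Multiplicative.ofAdd (v i))
    (by rw [List.prod_ofFn, ← ofAdd_sum, hv, ofAdd_zero])
  exact ⟨fun g => (h g).toAdd, ⟨fun a _ b _ => congrArg Multiplicative.toAdd (map_mul h a b),
    kerN h ho, fun u hu => ⟨trivial, congrArg Multiplicative.toAdd (show h u = 1 from hu)⟩⟩,
    fun i => congrArg Multiplicative.toAdd (hq i)⟩

theorem basisb_ne (hn : 2 ≤ n) (i : Fin n) : ∃ k, k ≠ i :=
  have := Fin.nontrivial_iff_two_le.2 hn
  exists_ne i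

theorem basisb_ch (hl : IsBasis l) {i k : Fin n} (h : k ≠ i) (m : ℕ) [NeZero m] :
    ∃ f : G → ZMod m, IsCh ⊤ f ∧ f (l i) = 1 ∧ ∀ j, j ≠ i → j ≠ k → f (l j) = 0 := by
  obtain ⟨f, hf, hv⟩ := hl.exists_ch (m := m) (Pi.single i 1 - Pi.single k 1) (by simp)
  exact ⟨f, hf, by simp [hv, h.symm], fun j h1 h2 => by simp [hv, h1, h2]⟩

/-- Hint: characters `l i ↦ 1`, `l j ↦ -1` mod `m`. -/
theorem IsBasis.pw_inj (hl : IsBasis l) (hn : 2 ≤ n) (i : Fin n) {a b : Zhat}
    (h : pw (l i) a = pw (l i) b) : a = b := by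
  obtain ⟨k, hk⟩ := basisb_ne hn i
  refine zhat_ext fun m _ => ?_
  obtain ⟨f, hf, h1, -⟩ := basisb_ch hl hk m
  have e := congrArg f h
  rwa [hf.map_pw trivial, hf.map_pw trivial, h1, mul_one, mul_one] at e

/-- Uniqueness of the index and of the exponent. Hint: if `i ≠ j` take a third index `k` and
the character `l i ↦ 1, l k ↦ -1` mod 2. -/
theorem IsBasis.conj_pw_inj (hl : IsBasis l) (hn : 3 ≤ n) {i j : Fin n} {a : Zhatˣ} {b : Zhat}
    {α β : G} (h : α * pw (l i) a * α⁻¹ = β * pw (l j) b * β⁻¹) : i = j ∧ (a : Zhat) = b := by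
  obtain ⟨k, hi, hj⟩ := Fin.exists_ne_and_ne_of_two_lt i j hn
  have key : ∀ (m : ℕ) [NeZero m], ∃ f : G → ZMod m, res m a = res m b * f (l j) ∧ f (l i) = 1 ∧
      (j ≠ i → f (l j) = 0) := fun m _ => by
    obtain ⟨f, hf, h1, h2⟩ := basisb_ch hl hi m
    have e := congrArg f h
    rw [hf.conj trivial trivial, hf.conj trivial trivial, hf.map_pw trivial, hf.map_pw trivial, h1,
      mul_one] at e
    exact ⟨f, e, h1, fun hne => h2 j hne hj.symm⟩
  obtain rfl : i = j := by
    by_contra hne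
    obtain ⟨f, e, -, h2⟩ := key 2
    rw [h2 (Ne.symm hne), mul_zero] at e
    exact (a.isUnit.map (res 2)).ne_zero e
  refine ⟨rfl, zhat_ext fun m _ => ?_⟩
  obtain ⟨f, e, h1, -⟩ := key m
  rwa [h1, mul_one] at e

/-- Characteristic open subgroups are cofinal. Hint: there are finitely many homomorphisms
`G →* G ⧸ N` with open kernel (`ext_fin`); intersect their kernels. -/
theorem IsBasis.exists_char (hl : IsBasis l) (N : OpenNormalSubgroup G) :
    ∃ M : OpenNormalSubgroup G, M ≤ N ∧ ∀ ψ : G →* G, Continuous ψ → ∀ g ∈ M, ψ g ∈ M := by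
  have : Finite {h : G →* G ⧸ N.toSubgroup // IsOpen (h.ker : Set G)} :=
    Finite.of_injective (fun h i => h.1 (l i)) fun f g e =>
      Subtype.ext (hl.ext_fin f.2 g.2 (congrFun e))
  refine ⟨{ toSubgroup := ⨅ h : {h : G →* G ⧸ N.toSubgroup // IsOpen (h.ker : Set G)}, h.1.ker
            isOpen' := ?_
            isNormal' := Subgroup.normal_iInf_normal fun _ => inferInstance }, fun g hg => ?_,
    fun ψ hψ g hg => ?_⟩
  · change IsOpen ((⨅ h : {h : G →* G ⧸ N.toSubgroup // IsOpen (h.ker : Set G)}, h.1.ker :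
      Subgroup G) : Set G)
    rw [Subgroup.coe_iInf]
    exact isOpen_iInter_of_finite fun h => h.2
  · exact (pr_eq_one_iff N g).1 (Subgroup.mem_iInf.1 hg ⟨pr N, isOpen_ker_pr N⟩)
  · exact Subgroup.mem_iInf.2 fun h => Subgroup.mem_iInf.1 hg ⟨h.1.comp ψ, h.2.preimage hψ⟩

theorem basisb_force {W Q : Type} [Group W] [Group Q] (φ : W →* Q) (w : Fin n → W)
    (h : (List.ofFn (φ ∘ w)).prod = 1) (j : Fin n) : ∃ w' : Fin n → W,
    (∀ k, k ≠ j → w' k = w k) ∧ (∀ k, φ (w' k) = φ (w k)) ∧ (List.ofFn w').prod = 1 := by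
  obtain ⟨A, B, e⟩ : ∃ A B : W, ∀ u, (List.ofFn (Function.update w j u)).prod = A * u * B := by
    refine ⟨((List.ofFn w).take j).prod, ((List.ofFn w).drop (j + 1)).prod, fun u => ?_⟩
    have e : List.ofFn (Function.update w j u) = (List.ofFn w).set j u := by
      refine List.ext_getElem (by simp) fun k h1 h2 => ?_
      simp only [List.getElem_ofFn, List.getElem_set, Function.update_apply, Fin.ext_iff, eq_comm]
    rw [e, List.prod_set, if_pos (by simp)]
  refine ⟨Function.update w j (A⁻¹ * B⁻¹), fun k hk => Function.update_of_ne hk _ _, fun k => ?_,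
    by rw [e]; group⟩
  by_cases hk : k = j
  · rw [← List.map_ofFn, ← map_list_prod, ← Function.update_eq_self j w, e, map_mul, map_mul] at h
    rw [hk, Function.update_self, map_mul, map_inv, map_inv]
    calc (φ A)⁻¹ * (φ B)⁻¹ = (φ A)⁻¹ * (φ A * φ (w j) * φ B) * (φ B)⁻¹ := by rw [h, mul_one]
      _ = φ (w j) := by group
  · rw [Function.update_of_ne hk]

theorem basisb_wr {D Q : Type} [CommGroup D] [Group Q] [Finite Q] [DecidableEq Q] {d : D}
    (hd : d ≠ 1) {x : Q} {u : RegularWreathProduct D Q}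
    (h : u * ⟨Pi.mulSingle 1 d, x⟩ = ⟨Pi.mulSingle 1 d, x⟩ * u) : ∃ k : ℕ, x ^ k = u.right := by
  set w : RegularWreathProduct D Q := ⟨Pi.mulSingle 1 d, x⟩ with hw
  have r : ∀ k : ℕ, (w ^ k).right = x ^ k := fun k => map_pow RegularWreathProduct.rightHom w k
  have s : ∀ (k : ℕ) (y : Q), (w ^ (k + 1)).left y =
      (w ^ k).left y * Pi.mulSingle (M := fun _ => D) 1 d ((x ^ k)⁻¹ * y) := fun k y => by
    rw [pow_succ, RegularWreathProduct.mul_left, r]
    rfl
  have a : ∀ k : ℕ, k < orderOf x → (w ^ (k + 1)).left 1 = d := fun k => by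
    induction k with
    | zero => simp [hw]
    | succ k ih =>
      intro hk
      rw [s, ih (by omega), Pi.mulSingle_eq_of_ne, mul_one]
      rw [mul_one, ne_eq, inv_eq_one]
      exact pow_ne_one_of_lt_orderOf (by omega) hk
  by_contra hn
  have b : ∀ k : ℕ, (w ^ k).left u.right = 1 := fun k => by
    induction k with
    | zero => rfl
    | succ k ih =>
      rw [s, ih, Pi.mulSingle_eq_of_ne, mul_one]
      exact fun e => hn ⟨k, inv_mul_eq_one.1 e⟩
  obtain ⟨e, he⟩ := Nat.exists_eq_succ_of_ne_zero (orderOf_pos x).ne'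
  have c := congrArg (fun v => v.left u.right) (Commute.pow_right h (e + 1)).eq
  have he' : x ^ (e + 1) = 1 := by rw [← Nat.succ_eq_add_one, ← he, pow_orderOf_eq_one]
  simp only [RegularWreathProduct.mul_left, Pi.mul_apply, r, inv_mul_cancel, a e (by omega), b,
    one_mul, he', inv_one] at c
  exact hd (mul_eq_left.1 c)

/-- Finite level form of: the centraliser of `l i` is the closure of the group it generates.
Hint: `Q = G ⧸ N`; let `G` act on `Q × ZMod 2` (`lift_fin` into `Equiv.Perm (Q × ZMod 2)`):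
`l k` acts by `(x, z) ↦ (l k * x, z + a k x)` with `a i = indicator of 1`, `a k = 0` for
`k ≠ i, j` and the permutation for one fixed `j ≠ i` forced by the relation. Every `g` acts by
`(x, z) ↦ (g * x, z + c g x)`. With `e` the order of `l i` in `Q`, `(l i)^e` acts by
`(x, z) ↦ (x, z + indicator of zpowers (l i))`; an element commuting with it lies in `zpowers`. -/
theorem IsBasis.cent_fin (hl : IsBasis l) (hn : 2 ≤ n) (i : Fin n) (N : OpenNormalSubgroup G) :
    ∃ M : OpenNormalSubgroup G, ∀ g, pr M (g * l i) = pr M (l i * g) →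
      ∃ k : ℕ, pr N g = pr N (l i ^ k) := by
  classical
  obtain ⟨j, hj⟩ := basisb_ne hn i
  obtain ⟨w, h1, h2, h3⟩ := basisb_force
    (RegularWreathProduct.rightHom (D := Multiplicative (ZMod 2)) (Q := G ⧸ N.toSubgroup))
    (fun k => ⟨Pi.mulSingle 1 (Multiplicative.ofAdd 1), pr N (l k)⟩)
    (by
      change (List.ofFn (pr N ∘ l)).prod = 1
      rw [← List.map_ofFn, ← map_list_prod, hl.prod, map_one]) j
  obtain ⟨h, ho, hq⟩ := hl.lift_fin w h3
  have e : RegularWreathProduct.rightHom.comp h = pr N :=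
    hl.ext_fin (Subgroup.isOpen_mono (fun x hx => by
      rw [MonoidHom.mem_ker, MonoidHom.comp_apply, MonoidHom.mem_ker.1 hx, map_one]) ho)
      (isOpen_ker_pr N) fun k => by rw [MonoidHom.comp_apply, hq, h2]; rfl
  refine ⟨kerN h ho, fun g hg => ?_⟩
  rw [pr_kerN, map_mul, map_mul, hq, h1 i hj.symm] at hg
  obtain ⟨k, hk⟩ := basisb_wr (by decide) hg
  exact ⟨k, by rw [map_pow, hk, ← e]; rfl⟩

theorem IsBasis.cent (hl : IsBasis l) (hn : 2 ≤ n) (i : Fin n) {g : G}
    (h : g * l i = l i * g) : ∃ a, g = pw (l i) a := by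
  refine exists_pw_of_pr fun N => ?_
  obtain ⟨M, hM⟩ := hl.cent_fin hn i N
  exact hM g (congrArg _ h)

theorem IsBasis.conj_inj (hl : IsBasis l) (hn : 3 ≤ n) {a b : G}
    (h : (MulAut.conj a : MulAut G) = MulAut.conj b) : a = b := by
  have hc : ∀ x, b⁻¹ * a * x = x * (b⁻¹ * a) := fun x => by
    have e : a * x * a⁻¹ = b * x * b⁻¹ := DFunLike.congr_fun h x
    calc b⁻¹ * a * x = b⁻¹ * (a * x * a⁻¹) * a := by group
      _ = x * (b⁻¹ * a) := by rw [e]; group
  obtain ⟨j, hj⟩ := basisb_ne (n := n) (by omega) ⟨0, by omega⟩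
  obtain ⟨k, hk, hk'⟩ := Fin.exists_ne_and_ne_of_two_lt (⟨0, by omega⟩ : Fin n) j hn
  obtain ⟨s, hs⟩ := hl.cent (by omega) ⟨0, by omega⟩ (hc _)
  obtain ⟨t, ht⟩ := hl.cent (by omega) j (hc _)
  have h0 : s = 0 := zhat_ext fun m _ => by
    obtain ⟨f, hf, h1, h2⟩ := basisb_ch hl hk m
    have e := congrArg f (hs.symm.trans ht)
    rw [hf.map_pw trivial, hf.map_pw trivial, h1, h2 j hj hk'.symm, mul_one, mul_zero] at e
    rw [e, map_zero]
  rw [h0, pw_zero, inv_mul_eq_one] at hs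
  exact hs.symm

theorem basisb_aut (hl : IsBasis l) (f g : G →* G) (hf : Continuous f)
    (hg : Continuous g) (h1 : ∀ i, f (g (l i)) = l i) (h2 : ∀ i, g (f (l i)) = l i) :
    ∃ φ : MulAut G, Continuous φ ∧ ∀ x, φ x = f x :=
  ⟨f.toMulEquiv g (hl.ext (hg.comp hf) continuous_id h2) (hl.ext (hf.comp hg) continuous_id h1),
    hf, fun _ => rfl⟩

theorem basisb_lim (hl : IsBasis l) {y : Fin n → G}
    (h : ∀ N : OpenNormalSubgroup G, ∃ ψ : G →* G, ∀ i, pr N (ψ (l i)) = pr N (y i)) :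
    ∃ f : G →* G, Continuous f ∧ ∀ i, f (l i) = y i := by
  refine hl.lift G y (eq_of_pr fun N => ?_)
  obtain ⟨ψ, e⟩ := h N
  have e' : pr N ∘ y = (pr N).comp ψ ∘ l := funext fun i => (e i).symm
  rw [map_list_prod, List.map_ofFn, e', ← List.map_ofFn, ← map_list_prod, hl.prod, map_one, map_one]

/-- Cluster points of families of continuous automorphisms. Hint: apply `exists_cluster` to the
tuples `(α M (l i), (α M)⁻¹ (l i))`, lift both limits to continuous endomorphisms, use `pr_ext`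
and characteristic subgroups to see that they are inverse to each other. -/
theorem IsBasis.exists_cluster_aut (hl : IsBasis l) {H : Type} [Group H] [TopologicalSpace H]
    (α : OpenNormalSubgroup H → MulAut G) (hα : ∀ M, Continuous (α M)) :
    ∃ φ : MulAut G, Continuous φ ∧ ∀ (N : OpenNormalSubgroup G) (M : OpenNormalSubgroup H),
      ∃ M' : OpenNormalSubgroup H, M' ≤ M ∧ ∀ g, pr N (α M' g) = pr N (φ g) := by
  have hβ := fun M => continuous_inv_aut (α M) (hα M)
  obtain ⟨y, hy⟩ := exists_cluster fun M =>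
    Sum.elim (fun i => α M (l i)) fun i => ((α M)⁻¹ : MulAut G) (l i)
  obtain ⟨f, hf, f1⟩ := basisb_lim hl (y := fun i => y (Sum.inl i)) fun N => by
    obtain ⟨M, -, hM⟩ := hy N (Classical.arbitrary _)
    exact ⟨(α M).toMonoidHom, fun i => hM (Sum.inl i)⟩
  obtain ⟨g, hg, g1⟩ := basisb_lim hl (y := fun i => y (Sum.inr i)) fun N => by
    obtain ⟨M, -, hM⟩ := hy N (Classical.arbitrary _)
    exact ⟨((α M)⁻¹ : MulAut G).toMonoidHom, fun i => hM (Sum.inr i)⟩
  have key : ∀ (N : OpenNormalSubgroup G) (M : OpenNormalSubgroup H), ∃ M' ≤ M,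
      (∀ x, pr N (α M' x) = pr N (f x)) ∧ ∀ x, pr N (((α M')⁻¹ : MulAut G) x) = pr N (g x) :=
    fun N M => by
      obtain ⟨M', h1, h2⟩ := hy N M
      exact ⟨M', h1, hl.pr_ext N (f := (α M').toMonoidHom) (hα M') hf fun i => by
          rw [f1]; exact h2 (Sum.inl i),
        hl.pr_ext N (f := ((α M')⁻¹ : MulAut G).toMonoidHom) (hβ M') hg fun i => by
          rw [g1]; exact h2 (Sum.inr i)⟩
  obtain ⟨φ, hφ, e⟩ := basisb_aut hl f g hf hg
    (fun i => eq_of_pr fun N => by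
      obtain ⟨M, -, h1, h2⟩ := key (N ⊓ pre f hf N) (Classical.arbitrary _)
      rw [← (pr_pre f hf N).1 (pr_mono inf_le_right (h2 (l i))), ← pr_mono inf_le_left (h1 _),
        MulAut.apply_inv_self])
    (fun i => eq_of_pr fun N => by
      obtain ⟨M, -, h1, h2⟩ := key (N ⊓ pre g hg N) (Classical.arbitrary _)
      rw [← (pr_pre g hg N).1 (pr_mono inf_le_right (h1 (l i))), ← pr_mono inf_le_left (h2 _),
        MulAut.inv_apply_self])
  refine ⟨φ, hφ, fun N M => ?_⟩
  obtain ⟨M', h1, h2, -⟩ := key N M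
  exact ⟨M', h1, fun x => by rw [e, h2]⟩

/-- If `y` is conjugate to `x` modulo every `N`, it is conjugate to `x`. -/
theorem exists_conj_of_pr {x y : G}
    (h : ∀ N : OpenNormalSubgroup G, ∃ α, pr N y = pr N (α * x * α⁻¹)) :
    ∃ α, y = α * x * α⁻¹ := by
  have hc : IsClosed (Set.range fun α : G => α * x * α⁻¹) :=
    (isCompact_range (by fun_prop)).isClosed
  obtain ⟨α, hα⟩ := mem_of_pr hc fun N => (h N).elim fun α e => ⟨_, ⟨α, rfl⟩, e⟩
  exact ⟨α, hα.symm⟩

/-- Continuous automorphisms from two continuous endomorphisms inverse on the generators. -/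
theorem IsBasis.exists_aut (hl : IsBasis l) (f g : G →* G) (hf : Continuous f)
    (hg : Continuous g) (h1 : ∀ i, f (g (l i)) = l i) (h2 : ∀ i, g (f (l i)) = l i) :
    ∃ φ : MulAut G, Continuous φ ∧ ∀ x, φ x = f x := by
  exact basisb_aut hl f g hf hg h1 h2

end Pool.Agent.MP_1c2b6e_al

/-! Pure automorphisms, twisted norms, the splitting lemma. -/

namespace Pool.Agent.MP_1c2b6e_al

variable {G : Type} [Group G] [TopologicalSpace G] [IsTopologicalGroup G] [CompactSpace G]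
  [TotallyDisconnectedSpace G] {n : ℕ} {l : Fin n → G}

/-- `φ` is continuous and sends each `l i` to a conjugate of `l i ^ a`. -/
def Pure (l : Fin n → G) (φ : MulAut G) (a : Zhatˣ) : Prop :=
  Continuous φ ∧ ∀ i, ∃ α : G, φ (l i) = α * pw (l i) a * α⁻¹

theorem Pure.one (l : Fin n → G) : Pure l 1 1 := by
  refine ⟨continuous_id, fun i => ⟨1, ?_⟩⟩
  simp [pw_one]

theorem Pure.conj (l : Fin n → G) (g : G) : Pure l (MulAut.conj g) 1 := by
  refine ⟨continuous_conj_aut g, fun i => ⟨g, ?_⟩⟩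
  simp [pw_one]

theorem Pure.mul {φ ψ : MulAut G} {a b : Zhatˣ} (hφ : Pure l φ a) (hψ : Pure l ψ b) :
    Pure l (φ * ψ) (a * b) := by
  refine ⟨hφ.1.comp hψ.1, fun i => ?_⟩
  obtain ⟨α, hα⟩ := hφ.2 i
  obtain ⟨β, hβ⟩ := hψ.2 i
  refine ⟨φ β * α, ?_⟩
  rw [MulAut.mul_apply, hβ, map_mul, map_mul, map_inv, map_pw_aut φ hφ.1, hα, pw_conj,
    Units.val_mul, pw_mul]
  group

theorem Pure.inv {φ : MulAut G} {a : Zhatˣ} (hφ : Pure l φ a) : Pure l φ⁻¹ a⁻¹ := by
  refine ⟨continuous_inv_aut φ hφ.1, fun i => ?_⟩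
  obtain ⟨α, hα⟩ := hφ.2 i
  refine ⟨φ⁻¹ α⁻¹, ?_⟩
  apply φ.injective
  have h1 : ∀ x, φ (φ⁻¹ x) = x := fun x => φ.apply_symm_apply x
  rw [map_mul, map_mul, map_inv φ, h1, h1, map_pw_aut φ hφ.1, hα, pw_conj, ← pw_mul,
    Units.mul_inv, pw_one]
  group

theorem Pure.pow {φ : MulAut G} {a : Zhatˣ} (hφ : Pure l φ a) (k : ℕ) :
    Pure l (φ ^ k) (a ^ k) := by
  induction k with
  | zero => simpa using Pure.one l
  | succ k ih =>
    rw [pow_succ, pow_succ]
    exact ih.mul hφ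

theorem Pure.hasChar {φ : MulAut G} {a : Zhatˣ} (hφ : Pure l φ a) : HasChar l φ a := by
  refine ⟨hφ.1, 1, fun i => ?_⟩
  obtain ⟨α, hα⟩ := hφ.2 i
  exact ⟨α, _, isPow_iff.2 rfl, hα⟩

theorem Pure.unique (hl : IsBasis l) (hn : 3 ≤ n) {φ : MulAut G} {a b : Zhatˣ}
    (ha : Pure l φ a) (hb : Pure l φ b) : a = b := by
  obtain ⟨α, hα⟩ := ha.2 ⟨0, by omega⟩
  obtain ⟨β, hβ⟩ := hb.2 ⟨0, by omega⟩
  exact Units.ext (hl.conj_pw_inj hn (hα.symm.trans hβ)).2

/-- The twisted norm `e * θ e * ... * θ^(m-1) e`. -/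
def Nn (θ : MulAut G) (e : G) : ℕ → G
  | 0 => 1
  | m + 1 => Nn θ e m * (θ ^ m) e

omit [TopologicalSpace G] [IsTopologicalGroup G] [CompactSpace G] [TotallyDisconnectedSpace G] in
theorem conj_mul_pow (θ : MulAut G) (e : G) (m : ℕ) :
    (MulAut.conj e * θ) ^ m = MulAut.conj (Nn θ e m) * θ ^ m := by
  induction m with
  | zero => simp [Nn]
  | succ m ih =>
    rw [pow_succ, ih]
    ext x
    simp only [Nn, MulAut.mul_apply, MulAut.conj_apply, map_mul, map_inv, pow_succ]

omit [TopologicalSpace G] [IsTopologicalGroup G] [CompactSpace G] [TotallyDisconnectedSpace G] in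
theorem Nn_mem {θ : MulAut G} {U : Subgroup G} (hU : ∀ u ∈ U, θ u ∈ U) {e : G} (he : e ∈ U)
    (m : ℕ) : Nn θ e m ∈ U := by
  have h : ∀ k : ℕ, (θ ^ k) e ∈ U := by
    intro k
    induction k with
    | zero => simpa using he
    | succ k ih =>
      rw [pow_succ', MulAut.mul_apply]
      exact hU _ ih
  induction m with
  | zero => exact U.one_mem
  | succ m ih => exact U.mul_mem ih (h m)

theorem IsCh.map_Nn {k : Type} [AddCommGroup k] {U : Subgroup G} {f : G → k} (hf : IsCh U f)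
    {θ : MulAut G} (hU : ∀ u ∈ U, θ u ∈ U) {e : G} (he : e ∈ U) (m : ℕ) :
    f (Nn θ e m) = ∑ j ∈ Finset.range m, f ((θ ^ j) e) := by
  have h : ∀ k : ℕ, (θ ^ k) e ∈ U := by
    intro k
    induction k with
    | zero => simpa using he
    | succ k ih =>
      rw [pow_succ', MulAut.mul_apply]
      exact hU _ ih
  induction m with
  | zero => simpa [Nn] using hf.one
  | succ m ih => rw [Finset.sum_range_succ, ← ih, Nn, hf.1 _ (Nn_mem hU he m) _ (h m)]

theorem basis_fix (hl : IsBasis l) (hn : 3 ≤ n) {φ : MulAut G}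
    (hc : Continuous φ) {c : G} (hinj : ∀ a b, pw c a = pw c b → a = b) {a b : Zhat}
    (h : φ c = pw c a) {p : ℕ} (hpow : φ ^ p = MulAut.conj (pw c b)) : a * b = b := by
  have h1 : φ * MulAut.conj (pw c b) = MulAut.conj (pw c b) * φ := by
    rw [← hpow]
    exact (Commute.self_pow φ p).eq
  have h2 : φ (pw c b) = pw c b := by
    refine hl.conj_inj hn ?_
    ext x
    obtain ⟨y, rfl⟩ := φ.surjective x
    have h3 := congrArg (fun ψ : MulAut G => ψ y) h1
    simpa only [MulAut.mul_apply, MulAut.conj_apply, map_mul, map_inv] using h3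
  apply hinj
  rw [pw_mul, ← h, ← map_pw_aut φ hc, h2]

/-- Splitting lemma. If `φ` raises `c` to the power `a` and `φ ^ p` is conjugation by
`c ^ (p * b)`, then `conj (c ^ (-b)) * φ` has order dividing `p`. Hint: `φ` fixes `c ^ (p * b)`
(`conj_inj`), so `a * (p * b) = p * b`, so `a * b = b` and `φ` fixes `c ^ b`. -/
theorem IsBasis.split (hl : IsBasis l) (hn : 3 ≤ n) {φ : MulAut G} (hc : Continuous φ) {c : G}
    (hinj : ∀ a b, pw c a = pw c b → a = b) {a b : Zhat} (h : φ c = pw c a) {p : ℕ} (hp : p ≠ 0)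
    (hpow : φ ^ p = MulAut.conj (pw c (p * b))) : (MulAut.conj (pw c (-b)) * φ) ^ p = 1 := by
  have h1 := basis_fix hl hn hc hinj h hpow
  have h2 : a * b = b := by
    have h3 : (p : Zhat) * (a * b - b) = 0 := by linear_combination h1
    exact sub_eq_zero.1 (zhat_eq_zero hp h3)
  have h4 : φ (pw c (-b)) = pw c (-b) := by
    rw [map_pw_aut φ hc, h, ← pw_mul, mul_neg, h2]
  have h5 : Commute (MulAut.conj (pw c (-b)) : MulAut G) φ := by
    ext x
    simp only [MulAut.mul_apply, MulAut.conj_apply, map_mul, map_inv, h4]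
  rw [h5.mul_pow, hpow, ← map_pow, ← map_mul, ← pw_natCast, ← pw_mul, ← pw_add]
  have h6 : -b * (p : Zhat) + p * b = 0 := by ring
  rw [h6, pw_zero, map_one]

/-- In the situation of `split` the exponent is fixed by `a`. -/
theorem IsBasis.mul_eq_of_pow_eq_conj (hl : IsBasis l) (hn : 3 ≤ n) {φ : MulAut G}
    (hc : Continuous φ) {c : G} (hinj : ∀ a b, pw c a = pw c b → a = b) {a b : Zhat}
    (h : φ c = pw c a) {p : ℕ} (hpow : φ ^ p = MulAut.conj (pw c b)) : a * b = b := by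
  exact basis_fix hl hn hc hinj h hpow

end Pool.Agent.MP_1c2b6e_al

/-! Cusps of an open subgroup and the values of characters on them. -/

namespace Pool.Agent.MP_1c2b6e_al

open Classical

variable {G : Type} [Group G] [TopologicalSpace G] [IsTopologicalGroup G] [CompactSpace G]
  [TotallyDisconnectedSpace G] {n : ℕ}

/-- Ramification index: the least `e > 0` with `g⁻¹ * x ^ e * g ∈ U`. -/
noncomputable def ram (U : Subgroup G) (x g : G) : ℕ :=
  Function.minimalPeriod (fun q : G ⧸ U => x • q) (g : G ⧸ U)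

/-- The generator of the cusp of `U` at `g`. -/
noncomputable def cel (U : Subgroup G) (x g : G) : G := g⁻¹ * x ^ ram U x g * g

/-- The cusps of `U`. -/
def Cusp (l : Fin n → G) (U : Subgroup G) : Type :=
  Σ i : Fin n, MulAction.orbitRel.Quotient (Subgroup.zpowers (l i)) (G ⧸ U)

/-- The cusp over `i` at `g`. -/
def cls (l : Fin n → G) (U : Subgroup G) (i : Fin n) (g : G) : Cusp l U :=
  ⟨i, Quotient.mk'' (g : G ⧸ U)⟩

/-- The value of `f` at a cusp. -/
noncomputable def ev {k : Type} (l : Fin n → G) (U : Subgroup G) (f : G → k) (x : Cusp l U) : k :=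
  f (cel U (l x.1) x.2.out.out)

variable {l : Fin n → G} {U : Subgroup G}

omit [TotallyDisconnectedSpace G] in
theorem finite_quot_open (hU : IsOpen (U : Set G)) : Finite (G ⧸ U) :=
  Subgroup.quotient_finite_of_isOpen U hU

omit [TotallyDisconnectedSpace G] in
theorem finite_cusp (hU : IsOpen (U : Set G)) : Finite (Cusp l U) := by
  have := finite_quot_open hU
  unfold Cusp
  infer_instance

omit [TopologicalSpace G] [IsTopologicalGroup G] [CompactSpace G] [TotallyDisconnectedSpace G] in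
theorem cuspa_out (x : Cusp l U) : x = cls l U x.1 x.2.out.out := by
  obtain ⟨i, q⟩ := x
  refine congrArg (Sigma.mk i) ?_
  exact (Quotient.out_eq' q).symm.trans (congrArg Quotient.mk'' (Quotient.out_eq' _).symm)

omit [TopologicalSpace G] [IsTopologicalGroup G] [CompactSpace G] [TotallyDisconnectedSpace G] in
theorem exists_cls (x : Cusp l U) : ∃ g, x = cls l U x.1 g :=
  ⟨_, cuspa_out x⟩

omit [TotallyDisconnectedSpace G] in
theorem ram_pos (hU : IsOpen (U : Set G)) (x g : G) : 0 < ram U x g := by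
  have := finite_quot_open hU
  exact Function.minimalPeriod_pos_of_mem_periodicPts
    ((MulAction.injective x).mem_periodicPts _)

omit [TopologicalSpace G] [IsTopologicalGroup G] [CompactSpace G] [TotallyDisconnectedSpace G] in
theorem pow_mem_iff (x g : G) (k : ℕ) : g⁻¹ * x ^ k * g ∈ U ↔ ram U x g ∣ k := by
  unfold ram
  rw [← MulAction.pow_smul_eq_iff_minimalPeriod_dvd, eq_comm, MulAction.Quotient.smul_mk,
    QuotientGroup.eq, smul_eq_mul, mul_assoc]

omit [TopologicalSpace G] [IsTopologicalGroup G] [CompactSpace G] [TotallyDisconnectedSpace G] in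
theorem cel_mem (x g : G) : cel U x g ∈ U :=
  (pow_mem_iff x g _).2 dvd_rfl

omit [IsTopologicalGroup G] [CompactSpace G] [TotallyDisconnectedSpace G] in
theorem cuspa_congr {N : OpenNormalSubgroup G} (hN : N.toSubgroup ≤ U) {a b : G}
    (h : pr N a = pr N b) (c d : G) (ha : c * a * d ∈ U) : c * b * d ∈ U := by
  have h1 : pr N (c * a * d) = pr N (c * b * d) := by simp only [map_mul, h]
  have h2 := U.mul_mem ha (hN ((pr_eq_iff N _ _).1 h1))
  rwa [mul_inv_cancel_left] at h2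

theorem pw_cel (x g : G) (b : Zhat) :
    pw (cel U x g) b = g⁻¹ * pw x ((ram U x g : Zhat) * b) * g := by
  have := pw_conj g⁻¹ (x ^ ram U x g) b
  rw [inv_inv] at this
  rw [pw_mul, pw_natCast, ← this, cel]

theorem pw_mem_iff (hU : IsOpen (U : Set G)) (x g : G) (a : Zhat) :
    g⁻¹ * pw x a * g ∈ U ↔ ∃ b, a = (ram U x g : Zhat) * b := by
  constructor
  · intro h
    obtain ⟨N, hN⟩ := exists_le_of_isOpen U hU
    have : NeZero (ram U x g) := ⟨(ram_pos hU x g).ne'⟩
    have : NeZero (Nat.card (G ⧸ N.toSubgroup)) := ⟨Nat.card_pos.ne'⟩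
    have h1 := map_pw_fin (pr N) (isOpen_ker_pr N) x a (Nat.card (G ⧸ N.toSubgroup) * ram U x g)
      (by rw [pow_mul, pow_card_eq_one', one_pow])
    rw [← map_pow] at h1
    have h2 := (pow_mem_iff x g _).1 (cuspa_congr hN h1 _ _ h)
    refine zhat_dvd ?_
    rw [← res_cast (dvd_mul_left (ram U x g) (Nat.card (G ⧸ N.toSubgroup))), ZMod.castHom_apply,
      ZMod.cast_eq_val, ZMod.natCast_eq_zero_iff]
    exact h2
  · rintro ⟨b, rfl⟩
    rw [← pw_cel]
    exact pw_mem (U.isClosed_of_isOpen hU) (cel_mem x g) b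

theorem cls_eq_iff (hU : IsOpen (U : Set G)) (i : Fin n) (g g' : G) :
    cls l U i g = cls l U i g' ↔ ∃ a, ∃ u ∈ U, g' = pw (l i) a * g * u := by
  have e : cls l U i g = cls l U i g' ↔
      (g' : G ⧸ U) ∈ MulAction.orbit (Subgroup.zpowers (l i)) (g : G ⧸ U) := by
    rw [← MulAction.orbitRel_apply, ← Quotient.eq'']
    exact ⟨fun h => (eq_of_heq (Sigma.mk.inj h).2).symm, fun h => congrArg (Sigma.mk i) h.symm⟩
  rw [e]
  constructor
  · rintro ⟨⟨_, k, rfl⟩, hk⟩
    have h1 : ((l i ^ k * g : G) : G ⧸ U) = g' := hk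
    refine ⟨(k : Zhat), _, QuotientGroup.eq.1 h1, ?_⟩
    rw [pw_intCast, mul_inv_cancel_left]
  · rintro ⟨a, u, hu, rfl⟩
    obtain ⟨N, hN⟩ := exists_le_of_isOpen U hU
    obtain ⟨k, hk⟩ := exists_pr_pw N (l i) a
    refine ⟨⟨l i ^ k, Subgroup.npow_mem_zpowers _ _⟩, ?_⟩
    change ((l i ^ k * g : G) : G ⧸ U) = _
    rw [QuotientGroup.eq]
    have h1 := cuspa_congr hN hk.symm (l i ^ k * g)⁻¹ (g * u) (by simpa [mul_assoc] using hu)
    simpa only [mul_assoc] using h1

theorem cuspa_conj (x g u : G) (a : Zhat) (k : ℕ) :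
    (pw x a * g * u)⁻¹ * x ^ k * (pw x a * g * u) = u⁻¹ * (g⁻¹ * x ^ k * g) * u := by
  have h := (commute_pw ((Commute.refl x).pow_left k) a).eq
  calc (pw x a * g * u)⁻¹ * x ^ k * (pw x a * g * u)
      = u⁻¹ * g⁻¹ * (pw x a)⁻¹ * (x ^ k * pw x a) * g * u := by group
    _ = u⁻¹ * (g⁻¹ * x ^ k * g) * u := by rw [h]; group

theorem ram_mul (hU : IsOpen (U : Set G)) (x g : G) (a : Zhat) {u : G} (hu : u ∈ U) :
    ram U x (pw x a * g * u) = ram U x g := by
  have h : ∀ k, ram U x (pw x a * g * u) ∣ k ↔ ram U x g ∣ k := fun k => by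
    rw [← pow_mem_iff, ← pow_mem_iff, cuspa_conj, U.mul_mem_cancel_right hu,
      U.mul_mem_cancel_left (U.inv_mem hu)]
  exact Nat.dvd_antisymm ((h _).2 dvd_rfl) ((h _).1 dvd_rfl)

theorem cel_mul (hU : IsOpen (U : Set G)) (x g : G) (a : Zhat) {u : G} (hu : u ∈ U) :
    cel U x (pw x a * g * u) = u⁻¹ * cel U x g * u := by
  rw [cel, ram_mul hU x g a hu, cuspa_conj, cel]

theorem ev_cls {k : Type} [AddCommGroup k] (hU : IsOpen (U : Set G)) {f : G → k}
    (hf : IsCh U f) (i : Fin n) (g : G) : ev l U f (cls l U i g) = f (cel U (l i) g) := by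
  obtain ⟨a, u, hu, e⟩ := (cls_eq_iff hU i g _).1 (cuspa_out (cls l U i g))
  have h := hf.conj (cel_mem (l i) g) (U.inv_mem hu)
  rw [inv_inv, ← cel_mul hU (l i) g a hu, ← e] at h
  exact h

end Pool.Agent.MP_1c2b6e_al

/-! The relation between the values of characters at the cusps. -/

namespace Pool.Agent.MP_1c2b6e_al

open Classical

variable {G : Type} [Group G] [TopologicalSpace G] [IsTopologicalGroup G] [CompactSpace G]
  [TotallyDisconnectedSpace G] {n : ℕ} {l : Fin n → G} {U : Subgroup G}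

/-- Hint: `MonoidHom.transfer_eq_prod_quotient_orbitRel_zpowers_quot` and `hl.prod`. -/
theorem sum_ev {k : Type} [AddCommGroup k] (hl : IsBasis l) (hU : IsOpen (U : Set G))
    [Fintype (Cusp l U)] {f : G → k} (hf : IsCh U f) : ∑ x, ev l U f x = 0 := by
  have : Finite (G ⧸ U) := finite_quot_open hU
  have : U.FiniteIndex := Subgroup.finiteIndex_of_finite_quotient
  let φ : U →* Multiplicative k :=
    { toFun := fun u => Multiplicative.ofAdd (f u)
      map_one' := by
        change Multiplicative.ofAdd (f 1) = 1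
        rw [hf.one]
        rfl
      map_mul' := fun a b => by
        change Multiplicative.ofAdd (f (a * b)) = _
        rw [hf.1 a a.2 b b.2]
        rfl }
  let inst : ∀ i, Fintype (MulAction.orbitRel.Quotient (Subgroup.zpowers (l i)) (G ⧸ U)) :=
    fun i => Fintype.ofFinite _
  have h1 : ∀ i, Multiplicative.toAdd (MonoidHom.transfer φ (l i)) =
      ∑ q : MulAction.orbitRel.Quotient (Subgroup.zpowers (l i)) (G ⧸ U), ev l U f ⟨i, q⟩ := by
    intro i
    have h2 := @MonoidHom.transfer_eq_prod_quotient_orbitRel_zpowers_quot G _ U _ _ φ _ (l i)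
      (inst i)
    rw [h2, toAdd_prod]
    refine Finset.sum_congr rfl fun q _ => ?_
    change f _ = f _
    unfold cel ram
    rw [QuotientGroup.out_eq']
  have h3 : ∏ i, MonoidHom.transfer φ (l i) = 1 := by
    rw [← List.prod_ofFn]
    have h4 : (List.ofFn fun i => MonoidHom.transfer φ (l i)) =
        (List.ofFn l).map (MonoidHom.transfer φ) := by
      rw [List.map_ofFn]
      rfl
    rw [h4, ← map_list_prod, hl.prod, map_one]
  have h5 := congrArg Multiplicative.toAdd h3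
  rw [toAdd_prod, toAdd_one] at h5
  simp only [h1] at h5
  rw [← h5]
  have h6 := Fintype.sum_sigma (fun x : Σ i : Fin n,
    MulAction.orbitRel.Quotient (Subgroup.zpowers (l i)) (G ⧸ U) => ev l U f x)
  rw [← h6]
  exact Finset.sum_congr (Finset.ext fun x => ⟨fun _ => @Finset.mem_univ _ (id _) x,
    fun _ => Finset.mem_univ x⟩) fun _ _ => rfl

/-- The product of the generators after the index `i`. -/
def tl (l : Fin n → G) (i : Fin n) : G := ((List.ofFn l).drop (i + 1)).prod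

/-- The permutation of a skew product. -/
def cusp_perm {k : Type} [AddCommGroup k] (x : G) (b : G ⧸ U → k) : Equiv.Perm ((G ⧸ U) × k) where
  toFun p := (x • p.1, p.2 + b p.1)
  invFun p := (x⁻¹ • p.1, p.2 - b (x⁻¹ • p.1))
  left_inv p := by simp
  right_inv p := by simp

omit [TopologicalSpace G] [IsTopologicalGroup G] [CompactSpace G] [TotallyDisconnectedSpace G] in
theorem cusp_prod {k : Type} [AddCommGroup k] (n : ℕ) : ∀ (l : Fin n → G) (a : G ⧸ U → Fin n → k)
    (ω : G ⧸ U) (z : k), (List.ofFn fun i => cusp_perm (l i) fun ω => a ω i).prod (ω, z) =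
      ((List.ofFn l).prod • ω, z + ∑ i, a (tl l i • ω) i) := by
  induction n with
  | zero => intro l a ω z; simp
  | succ n ih =>
    intro l a ω z
    have h0 : tl l 0 = (List.ofFn fun i : Fin n => l i.succ).prod := by
      unfold tl
      rw [List.ofFn_succ]
      rfl
    have h1 : ∀ i : Fin n, tl l i.succ = tl (fun i : Fin n => l i.succ) i := by
      intro i
      unfold tl
      rw [List.ofFn_succ]
      rfl
    rw [List.ofFn_succ, List.prod_cons, Equiv.Perm.mul_apply,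
      ih (fun i => l i.succ) (fun ω i => a ω i.succ), List.ofFn_succ, List.prod_cons,
      Fin.sum_univ_succ, h0, mul_smul]
    simp only [h1]
    change (_, _) = (_, _)
    rw [add_assoc, add_comm (∑ _, _)]

omit [IsTopologicalGroup G] [CompactSpace G] [TotallyDisconnectedSpace G] in
theorem cusp_triv {N : OpenNormalSubgroup G} (hN : N.toSubgroup ≤ U) {g : G} (hg : g ∈ N)
    (ω : G ⧸ U) : g • ω = ω := by
  induction ω using QuotientGroup.induction_on with
  | H x =>
    change ((g * x : G) : G ⧸ U) = x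
    rw [QuotientGroup.eq]
    apply hN
    have h1 := N.isNormal'.conj_mem _ (N.toSubgroup.inv_mem hg) x⁻¹
    have h2 : (g * x)⁻¹ * x = x⁻¹ * g⁻¹ * x⁻¹⁻¹ := by group
    rw [h2]
    exact h1

omit [TopologicalSpace G] [IsTopologicalGroup G] [CompactSpace G] [TotallyDisconnectedSpace G] in
theorem cusp_fix {u : G} (hu : u ∈ U) : u • ((1 : G) : G ⧸ U) = ((1 : G) : G ⧸ U) := by
  change ((u * 1 : G) : G ⧸ U) = _
  rw [QuotientGroup.eq]
  simpa using hu

/-- A cocycle with prescribed values on the generators. Hint: `lift_fin` into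
`Equiv.Perm ((G ⧸ U) × k)`, `l i` acting by `(ω, z) ↦ (l i • ω, z + a ω i)`. -/
theorem exists_cocycle {k : Type} [AddCommGroup k] [Finite k] (hl : IsBasis l)
    (hU : IsOpen (U : Set G)) (a : G ⧸ U → Fin n → k)
    (ha : ∀ ω : G ⧸ U, ∑ i, a (tl l i • ω) i = 0) :
    ∃ c : G → G ⧸ U → k, (∀ g h ω, c (g * h) ω = c g (h • ω) + c h ω) ∧
      (∀ i ω, c (l i) ω = a ω i) ∧
      ∃ N : OpenNormalSubgroup G, ∀ g ∈ N, g ∈ U ∧ ∀ ω, c g ω = 0 := by
  have : Finite (G ⧸ U) := finite_quot_open hU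
  have hq : (List.ofFn fun i => cusp_perm (l i) fun ω => a ω i).prod = 1 := by
    refine Equiv.ext fun p => ?_
    obtain ⟨ω, z⟩ := p
    rw [cusp_prod, hl.prod, ha, one_smul, add_zero]
    rfl
  obtain ⟨h, ho, hh⟩ := hl.lift_fin _ hq
  obtain ⟨N0, hN0⟩ := exists_le_of_isOpen U hU
  let S : Subgroup G :=
    { carrier := {g | ∃ d : G ⧸ U → k, ∀ ω z, h g (ω, z) = (g • ω, z + d ω)}
      one_mem' := ⟨0, fun ω z => by simp⟩
      mul_mem' := fun {g g'} ⟨d, hd⟩ ⟨d', hd'⟩ => ⟨fun ω => d' ω + d (g' • ω), fun ω z => by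
        rw [map_mul, Equiv.Perm.mul_apply, hd', hd, mul_smul, add_assoc]⟩
      inv_mem' := fun {g} ⟨d, hd⟩ => ⟨fun ω => -d (g⁻¹ • ω), fun ω z => by
        rw [map_inv, Equiv.Perm.inv_eq_iff_eq, hd]
        simp⟩ }
  have hN : ∀ g ∈ N0 ⊓ kerN h ho, g ∈ U ∧ (∀ ω : G ⧸ U, g • ω = ω) ∧ h g = 1 := by
    intro g hg
    have h1 : g ∈ N0 := hg.1
    have h2 : g ∈ h.ker := hg.2
    exact ⟨hN0 h1, cusp_triv hN0 h1, h2⟩
  have hS : S = ⊤ := by
    apply hl.eq_top_of_isOpen
    · refine Subgroup.isOpen_mono (H₁ := (N0 ⊓ kerN h ho).toSubgroup) ?_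
        (N0 ⊓ kerN h ho).isOpen'
      intro g hg
      obtain ⟨_, h2, h3⟩ := hN g hg
      exact ⟨0, fun ω z => by rw [h3, h2]; simp⟩
    · intro i
      exact ⟨fun ω => a ω i, fun ω z => by rw [hh]; rfl⟩
  have hc : ∀ g ω z, h g (ω, z) = (g • ω, z + (h g (ω, 0)).2) := by
    intro g ω z
    have h1 : g ∈ S := by rw [hS]; exact Subgroup.mem_top g
    obtain ⟨d, hd⟩ := h1
    rw [hd, hd, zero_add]
  refine ⟨fun g ω => (h g (ω, 0)).2, fun g g' ω => ?_, fun i ω => ?_, N0 ⊓ kerN h ho,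
    fun g hg => ⟨(hN g hg).1, fun ω => ?_⟩⟩
  · beta_reduce
    rw [map_mul, Equiv.Perm.mul_apply, hc g' ω 0, hc g (g' • ω), zero_add, add_comm]
  · beta_reduce
    rw [hh]
    exact zero_add _
  · beta_reduce
    rw [(hN g hg).2.2]
    rfl

omit [IsTopologicalGroup G] [CompactSpace G] [TotallyDisconnectedSpace G] in
theorem isCh_cocycle {k : Type} [AddCommGroup k] {c : G → G ⧸ U → k}
    (h1 : ∀ g h ω, c (g * h) ω = c g (h • ω) + c h ω)
    (h2 : ∃ N : OpenNormalSubgroup G, ∀ g ∈ N, g ∈ U ∧ ∀ ω, c g ω = 0) :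
    IsCh U fun u => c u ((1 : G) : G ⧸ U) := by
  refine ⟨fun a _ b hb => ?_, ?_⟩
  · beta_reduce
    rw [h1, cusp_fix hb]
  · obtain ⟨N, hN⟩ := h2
    exact ⟨N, fun u hu => ⟨(hN u hu).1, (hN u hu).2 _⟩⟩

omit [TopologicalSpace G] [IsTopologicalGroup G] [CompactSpace G] [TotallyDisconnectedSpace G] in
theorem cocycle_conj_pow {k : Type} [AddCommGroup k] {c : G → G ⧸ U → k}
    (h1 : ∀ g h ω, c (g * h) ω = c g (h • ω) + c h ω) (x g : G) (m : ℕ)
    (hm : g⁻¹ * x ^ m * g ∈ U) :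
    c (g⁻¹ * x ^ m * g) ((1 : G) : G ⧸ U) =
      ∑ j ∈ Finset.range m, c x (x ^ j • (g : G ⧸ U)) := by
  have h0 : ∀ ω, c 1 ω = 0 := by
    intro ω
    have h2 := h1 1 1 ω
    rw [one_mul, one_smul] at h2
    exact left_eq_add.1 h2
  have h2 : ∀ (j : ℕ) ω, c (x ^ j) ω = ∑ i ∈ Finset.range j, c x (x ^ i • ω) := by
    intro j ω
    induction j with
    | zero => rw [pow_zero, h0, Finset.sum_range_zero]
    | succ j ih => rw [pow_succ', h1, ih, Finset.sum_range_succ, add_comm]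
  have h3 : g • ((1 : G) : G ⧸ U) = (g : G ⧸ U) := by
    change ((g * 1 : G) : G ⧸ U) = _
    rw [mul_one]
  have h4 : x ^ m • (g : G ⧸ U) = (g : G ⧸ U) := by
    change ((x ^ m * g : G) : G ⧸ U) = _
    rw [eq_comm, QuotientGroup.eq, ← mul_assoc]
    exact hm
  have h5 := h1 g⁻¹ g ((1 : G) : G ⧸ U)
  rw [inv_mul_cancel, h0, h3] at h5
  rw [h1, h1, h3, h4, h2, add_right_comm, ← h5, zero_add]

omit [TopologicalSpace G] [IsTopologicalGroup G] [CompactSpace G] [TotallyDisconnectedSpace G] in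
theorem cusp_delta {k : Type} [AddCommGroup k] [Finite (G ⧸ U)] (x : G) (ω ω0 : G ⧸ U) (v : k) :
    ∑ t ∈ Finset.range (Function.minimalPeriod (fun q : G ⧸ U => x • q) ω),
      (if x ^ t • ω = ω0 then v else 0) =
      if (Quotient.mk'' ω : MulAction.orbitRel.Quotient (Subgroup.zpowers x) (G ⧸ U)) =
        Quotient.mk'' ω0 then v else 0 := by
  by_cases h : (Quotient.mk'' ω : MulAction.orbitRel.Quotient (Subgroup.zpowers x) (G ⧸ U)) =
      Quotient.mk'' ω0
  · rw [if_pos h]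
    obtain ⟨⟨_, z, rfl⟩, hz⟩ := Quotient.exact' h.symm
    have hz' : x ^ z • ω = ω0 := hz
    have hP : 0 < Function.minimalPeriod (fun q : G ⧸ U => x • q) ω :=
      Nat.pos_of_ne_zero (NeZero.ne _)
    have h1 := MulAction.zpow_smul_mod_minimalPeriod x ω z
    have h2 := Int.emod_nonneg z (Int.natCast_ne_zero.2 hP.ne')
    have h3 := Int.emod_lt_of_pos z (Int.natCast_pos.2 hP)
    obtain ⟨t, ht⟩ := Int.eq_ofNat_of_zero_le h2
    rw [ht, zpow_natCast, hz'] at h1
    have h4 : t < Function.minimalPeriod (fun q : G ⧸ U => x • q) ω := by omega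
    rw [Finset.sum_eq_single t, if_pos h1]
    · intro s hs hst
      refine if_neg fun h5 => hst ?_
      refine Function.iterate_injOn_Iio_minimalPeriod (f := fun q : G ⧸ U => x • q) (x := ω)
        (Finset.mem_range.1 hs) h4 ?_
      beta_reduce
      rw [smul_iterate_apply, smul_iterate_apply, h1, h5]
    · intro h5
      exact absurd (Finset.mem_range.2 h4) h5
  · rw [if_neg h]
    refine Finset.sum_eq_zero fun t _ => if_neg fun h1 => h ?_
    have h2 : (MulAction.orbitRel (Subgroup.zpowers x) (G ⧸ U)) ω0 ω :=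
      ⟨⟨x ^ t, Subgroup.npow_mem_zpowers x t⟩, h1⟩
    exact (Quotient.sound' h2).symm

omit [TopologicalSpace G] [IsTopologicalGroup G] [CompactSpace G] [TotallyDisconnectedSpace G] in
theorem cusp_single {k : Type} [Ring k] [Finite (G ⧸ U)] [Fintype (Cusp l U)] (β : Cusp l U → k)
    (i : Fin n) (ω0 : G ⧸ U) :
    ∑ x : Cusp l U, β x *
      ∑ t ∈ Finset.range (Function.minimalPeriod (fun q : G ⧸ U => l x.1 • q) x.2.out),
        (if x.1 = i ∧ l x.1 ^ t • x.2.out = ω0 then (1 : k) else 0) =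
      β ⟨i, Quotient.mk'' ω0⟩ := by
  refine (@Finset.sum_eq_single (Cusp l U) k _ _ _ ⟨i, Quotient.mk'' ω0⟩ ?_ ?_).trans ?_
  · rintro ⟨j, q⟩ _ hx
    by_cases hj : j = i
    · subst hj
      simp only [true_and]
      rw [cusp_delta, if_neg, mul_zero]
      intro h1
      rw [Quotient.out_eq'] at h1
      exact hx (by rw [h1])
    · exact mul_eq_zero_of_right _ (Finset.sum_eq_zero fun t _ => if_neg fun h1 => hj h1.1)
  · intro h
    exact absurd (@Finset.mem_univ (Cusp l U) _ _) h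
  · simp only [true_and]
    rw [cusp_delta, if_pos (Quotient.out_eq' _), mul_one]

/-- The only relation between the values of characters at the cusps is that they sum to zero.
Hint: for `ω` and `i ≠ j` take `a = δ_(tl l i • ω, i) - δ_(tl l j • ω, j)` in `exists_cocycle`;
this gives that `α ω := β (cusp over i at tl l i • ω)` does not depend on `i`. Then `α` is
invariant under `(tl l i)⁻¹ * l i * tl l i` for all `i`; the stabiliser of `α` is an open subgroup
containing all `l i` (descending induction on `i`). -/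
theorem cusp_dual {m : ℕ} [NeZero m] (hl : IsBasis l) (hU : IsOpen (U : Set G))
    [Fintype (Cusp l U)] (β : Cusp l U → ZMod m)
    (h : ∀ f : G → ZMod m, IsCh U f → ∑ x, β x * ev l U f x = 0) (x y : Cusp l U) :
    β x = β y := by
  have : Finite (G ⧸ U) := finite_quot_open hU
  have key : ∀ (ω : G ⧸ U) (i j : Fin n),
      β ⟨i, Quotient.mk'' (tl l i • ω)⟩ = β ⟨j, Quotient.mk'' (tl l j • ω)⟩ := by
    intro ω i j
    obtain ⟨c, h1, h2, h3⟩ := exists_cocycle (k := ZMod m) hl hU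
      (fun ω' i' => (if i' = i ∧ ω' = tl l i • ω then 1 else 0) -
        (if i' = j ∧ ω' = tl l j • ω then 1 else 0)) fun ω' => by
        have h4 : ∀ i : Fin n, ∑ i', (if i' = i ∧ tl l i' • ω' = tl l i • ω then (1 : ZMod m)
            else 0) = if ω' = ω then 1 else 0 := by
          intro i
          rw [Finset.sum_eq_single i (fun i' _ hi => if_neg fun h5 => hi h5.1)
            (fun h5 => absurd (Finset.mem_univ i) h5)]
          simp
        rw [Finset.sum_sub_distrib, h4, h4, sub_self]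
    have h4 := h _ (isCh_cocycle h1 h3)
    have h5 : ∀ x : Cusp l U, ev l U (fun u => c u ((1 : G) : G ⧸ U)) x =
        ∑ t ∈ Finset.range (Function.minimalPeriod (fun q : G ⧸ U => l x.1 • q) x.2.out),
          ((if x.1 = i ∧ l x.1 ^ t • x.2.out = tl l i • ω then 1 else 0) -
            (if x.1 = j ∧ l x.1 ^ t • x.2.out = tl l j • ω then 1 else 0)) := by
      intro x
      have h6 := cocycle_conj_pow h1 (l x.1) x.2.out.out _ (cel_mem (U := U) (l x.1) x.2.out.out)
      refine h6.trans ?_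
      unfold ram
      rw [QuotientGroup.out_eq']
      exact Finset.sum_congr rfl fun t _ => h2 _ _
    simp only [h5, Finset.sum_sub_distrib, mul_sub] at h4
    rw [cusp_single, cusp_single] at h4
    exact sub_eq_zero.1 h4
  obtain ⟨N0, hN0⟩ := exists_le_of_isOpen U hU
  let α : G ⧸ U → ZMod m := fun ω => β ⟨x.1, Quotient.mk'' (tl l x.1 • ω)⟩
  let S : Subgroup G :=
    { carrier := {g | ∀ ω, α (g • ω) = α ω}
      one_mem' := fun ω => by rw [one_smul]
      mul_mem' := fun {g g'} hg hg' ω => by rw [mul_smul, hg, hg']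
      inv_mem' := fun {g} hg ω => by rw [← hg (g⁻¹ • ω), smul_inv_smul] }
  have h1 : ∀ i, (tl l i)⁻¹ * l i * tl l i ∈ S := by
    intro i ω
    change β _ = β _
    rw [key _ x.1 i, key ω x.1 i, mul_smul, mul_smul, smul_inv_smul]
    congr 2
    exact Quotient.sound' ⟨⟨l i, Subgroup.mem_zpowers _⟩, rfl⟩
  have h2 : ∀ d, ∀ i : Fin n, n ≤ i + d → l i ∈ S := by
    intro d
    induction d with
    | zero => intro i hi; exact absurd i.2 (by omega)
    | succ d ih =>
      intro i hi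
      have h3 : tl l i ∈ S := by
        apply Subgroup.list_prod_mem
        intro g hg
        obtain ⟨t, ht, rfl⟩ := List.getElem_of_mem hg
        rw [List.getElem_drop, List.getElem_ofFn]
        apply ih
        change n ≤ i + 1 + t + d
        omega
      have h4 : l i = tl l i * ((tl l i)⁻¹ * l i * tl l i) * (tl l i)⁻¹ := by group
      rw [h4]
      exact mul_mem (mul_mem h3 (h1 i)) (inv_mem h3)
  have hS : S = ⊤ := by
    apply hl.eq_top_of_isOpen
    · refine Subgroup.isOpen_mono (H₁ := N0.toSubgroup) ?_ N0.isOpen'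
      intro g hg ω
      rw [cusp_triv hN0 hg]
    · intro i
      exact h2 n i (by omega)
  have h3 : ∀ ω, α ω = α ((1 : G) : G ⧸ U) := by
    intro ω
    induction ω using QuotientGroup.induction_on with
    | H g =>
      have h4 : g ∈ S := by rw [hS]; exact Subgroup.mem_top g
      rw [← h4 ((1 : G) : G ⧸ U)]
      change α _ = α ((g * 1 : G) : G ⧸ U)
      rw [mul_one]
  have h4 : ∀ z : Cusp l U, β z = α ((1 : G) : G ⧸ U) := by
    intro z
    rw [← h3 ((tl l z.1)⁻¹ • z.2.out)]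
    change _ = β _
    rw [key _ x.1 z.1, smul_inv_smul, Quotient.out_eq']
    rfl
  rw [h4, h4]

end Pool.Agent.MP_1c2b6e_al

/-! An outer involution of the tripod that reverses the orientation at `2` reverses it at every
odd prime. -/

namespace Pool.Agent.MP_1c2b6e_al

open Classical

/-- The combinatorial core. Edges `A = inl false`, `B = inl true` and `inr k`; every edge `x` has
two ends `e x`, `e' x` (vertices are classes of the equivalence `R`); no loops, no parallel edges,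
every vertex has even degree; an end of `A` or `B` that meets one edge `inr k` meets them all. -/
theorem graph_core {V κ : Type} [Fintype κ] (R : Setoid V) (e e' : Bool ⊕ κ → V)
    (hκ : Odd (Fintype.card κ)) (hκ' : 3 ≤ Fintype.card κ)
    (hloop : ∀ x, ¬R (e x) (e' x))
    (hpar : ∀ x y, x ≠ y → ¬((R (e x) (e y) ∧ R (e' x) (e' y)) ∨ (R (e x) (e' y) ∧ R (e' x) (e y))))
    (heven : ∀ v, (∃ x, v = e x ∨ v = e' x) →
      Even (Finset.univ.filter fun x => R v (e x) ∨ R v (e' x)).card)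
    (hfix : ∀ v, (∃ c : Bool, v = e (Sum.inl c) ∨ v = e' (Sum.inl c)) → ∀ k k' : κ,
      (R v (e (Sum.inr k)) → R v (e (Sum.inr k'))) ∧
        (R v (e' (Sum.inr k)) → R v (e' (Sum.inr k')))) : False := by
  obtain ⟨k1, k2, hk⟩ : ∃ k1 k2 : κ, k1 ≠ k2 := Fintype.exists_pair_of_one_lt_card (by omega)
  have step : ∀ (c : Bool) (v : V), (v = e (Sum.inl c) ∨ v = e' (Sum.inl c)) →
      ¬(R v (e (Sum.inl !c)) ∨ R v (e' (Sum.inl !c))) →
      (∀ k, R v (e (Sum.inr k))) ∨ ∀ k, R v (e' (Sum.inr k)) := by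
    intro c v hv hn
    by_contra h
    have h1 : (Finset.univ.filter fun x => R v (e x) ∨ R v (e' x)) = {Sum.inl c} := by
      ext x
      rw [Finset.mem_filter, Finset.mem_singleton]
      constructor
      · rintro ⟨_, hx⟩
        rcases x with c' | k
        · by_contra h2
          have h3 : c' = !c := by
            cases c <;> cases c' <;> simp at h2 ⊢
          rw [h3] at hx
          exact hn hx
        · exfalso
          rcases hx with hx | hx
          · exact h (Or.inl fun k' => (hfix v ⟨c, hv⟩ k k').1 hx)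
          · exact h (Or.inr fun k' => (hfix v ⟨c, hv⟩ k k').2 hx)
      · rintro rfl
        refine ⟨Finset.mem_univ _, ?_⟩
        rcases hv with hv | hv
        · exact Or.inl (hv ▸ R.refl' _)
        · exact Or.inr (hv ▸ R.refl' _)
    have h2 := heven v ⟨_, hv⟩
    rw [h1, Finset.card_singleton] at h2
    exact Nat.not_even_one h2
  have step2 : ∀ c : Bool, ∃ v, (v = e (Sum.inl c) ∨ v = e' (Sum.inl c)) ∧
      ¬(R v (e (Sum.inl !c)) ∨ R v (e' (Sum.inl !c))) := by
    intro c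
    by_contra h
    have h1 : R (e (Sum.inl c)) (e (Sum.inl !c)) ∨ R (e (Sum.inl c)) (e' (Sum.inl !c)) := by
      by_contra h2
      exact h ⟨_, Or.inl rfl, h2⟩
    have h2 : R (e' (Sum.inl c)) (e (Sum.inl !c)) ∨ R (e' (Sum.inl c)) (e' (Sum.inl !c)) := by
      by_contra h2
      exact h ⟨_, Or.inr rfl, h2⟩
    have h3 : (Sum.inl c : Bool ⊕ κ) ≠ Sum.inl !c := by
      cases c <;> simp
    rcases h1 with h1 | h1 <;> rcases h2 with h2 | h2
    · exact hloop _ (R.trans' h1 (R.symm' h2))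
    · exact hpar _ _ h3 (Or.inl ⟨h1, h2⟩)
    · exact hpar _ _ h3 (Or.inr ⟨h1, h2⟩)
    · exact hloop _ (R.trans' h1 (R.symm' h2))
  obtain ⟨v, hv, hv'⟩ := step2 false
  obtain ⟨w, hw, hw'⟩ := step2 true
  have hvw : ¬R v w := by
    intro h
    rcases hw with hw | hw
    · exact hv' (Or.inl (by rw [hw] at h; exact h))
    · exact hv' (Or.inr (by rw [hw] at h; exact h))
  have h3 : (Sum.inr k1 : Bool ⊕ κ) ≠ Sum.inr k2 := fun h => hk (Sum.inr.inj h)
  rcases step false v hv hv' with h1 | h1 <;> rcases step true w hw hw' with h2 | h2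
  · exact hvw (R.trans' (h1 k1) (R.symm' (h2 k1)))
  · exact hpar _ _ h3
      (Or.inl ⟨R.trans' (R.symm' (h1 k1)) (h1 k2), R.trans' (R.symm' (h2 k1)) (h2 k2)⟩)
  · exact hpar _ _ h3
      (Or.inl ⟨R.trans' (R.symm' (h2 k1)) (h2 k2), R.trans' (R.symm' (h1 k1)) (h1 k2)⟩)
  · exact hvw (R.trans' (h1 k1) (R.symm' (h2 k1)))

variable {G : Type} [Group G] [TopologicalSpace G] [IsTopologicalGroup G] [CompactSpace G]
  [TotallyDisconnectedSpace G] {l : Fin 3 → G}

/-- The cusp generators of the cyclic cover of degree `q` ramified at `l 0` and `l 2`. -/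
def cy (l : Fin 3 → G) (q : ℕ) : Bool ⊕ Fin q → G
  | Sum.inl false => l 0 ^ q
  | Sum.inl true => l 2 ^ q
  | Sum.inr k => (l 0 ^ (k : ℕ))⁻¹ * l 1 * l 0 ^ (k : ℕ)

section cover

variable {q : ℕ} [NeZero q] {h : G → ZMod q} {U : Subgroup G}

theorem diha_zpow {k : Type} [AddCommGroup k] {U : Subgroup G} {f : G → k} (hf : IsCh U f) {a : G}
    (ha : a ∈ U) (z : ℤ) : f (a ^ z) = z • f a := by
  cases z with
  | ofNat m =>
    rw [Int.ofNat_eq_natCast, zpow_natCast, hf.pow ha, natCast_zsmul]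
  | negSucc m =>
    rw [zpow_negSucc, hf.inv (pow_mem ha _), hf.pow ha, negSucc_zsmul]

theorem diha_two (hl : IsBasis l) : l 2 = (l 0 * l 1)⁻¹ := by
  have h := hl.prod
  simp only [List.ofFn_succ, List.ofFn_zero, List.prod_cons, List.prod_nil, mul_one] at h
  rw [eq_inv_iff_mul_eq_one, ← mul_eq_one_comm, mul_assoc]
  exact h

theorem cy_mem (hh : IsCh ⊤ h) (h0 : h (l 0) = 1) (h1 : h (l 1) = 0) (h2 : h (l 2) = -1)
    (hU : ∀ g, g ∈ U ↔ h g = 0) (x : Bool ⊕ Fin q) : cy l q x ∈ U := by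
  rw [hU]
  rcases x with c | k
  · cases c
    · change h (l 0 ^ q) = 0
      rw [hh.pow (Subgroup.mem_top _), h0]
      simp
    · change h (l 2 ^ q) = 0
      rw [hh.pow (Subgroup.mem_top _), h2]
      simp
  · have h3 := hh.conj (Subgroup.mem_top (l 1)) (Subgroup.mem_top (l 0 ^ (k : ℕ))⁻¹)
    rw [inv_inv, h1] at h3
    exact h3

/-- Hint: `(l 2)⁻¹ = l 0 * l 1` and `(a * b)^m = a^m * ∏ (a^k)⁻¹ * b * a^k` in a suitable order;
by induction `f ((a^m)⁻¹ * (a * b)^m) = ∑ k < m, f ((a^k)⁻¹ * b * a^k)`. -/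
theorem cy_sum (hl : IsBasis l) (hh : IsCh ⊤ h) (h0 : h (l 0) = 1) (h1 : h (l 1) = 0)
    (h2 : h (l 2) = -1) (hU : ∀ g, g ∈ U ↔ h g = 0) {f : G → ZMod 2} (hf : IsCh U f) :
    ∑ x, f (cy l q x) = 0 := by
  have hc : ∀ m : ℕ, (l 0 ^ m)⁻¹ * l 1 * l 0 ^ m ∈ U := by
    intro m
    have h3 := hh.conj (Subgroup.mem_top (l 1)) (Subgroup.mem_top (l 0 ^ m)⁻¹)
    rw [inv_inv, h1] at h3
    exact (hU _).2 h3
  have hw : ∀ m : ℕ, (l 0 ^ m)⁻¹ * (l 0 * l 1) ^ m ∈ U ∧ f ((l 0 ^ m)⁻¹ * (l 0 * l 1) ^ m) =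
      ∑ k ∈ Finset.range m, f ((l 0 ^ k)⁻¹ * l 1 * l 0 ^ k) := by
    intro m
    induction m with
    | zero =>
      simp only [pow_zero, inv_one, mul_one, Finset.sum_range_zero]
      exact ⟨one_mem _, hf.one⟩
    | succ m ih =>
      have h3 : (l 0 ^ (m + 1))⁻¹ * (l 0 * l 1) ^ (m + 1) =
          ((l 0 ^ m)⁻¹ * l 1 * l 0 ^ m) * ((l 0 ^ m)⁻¹ * (l 0 * l 1) ^ m) := by
        rw [pow_succ', pow_succ']
        generalize (l 0 * l 1) ^ m = s
        generalize l 0 ^ m = t
        group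
      rw [h3]
      exact ⟨mul_mem (hc m) ih.1, by
        rw [hf.1 _ (hc m) _ ih.1, ih.2, Finset.sum_range_succ, add_comm]⟩
  have ha : l 0 ^ q ∈ U := cy_mem hh h0 h1 h2 hU (Sum.inl false)
  have h4 : l 2 ^ q = (l 0 ^ q * ((l 0 ^ q)⁻¹ * (l 0 * l 1) ^ q))⁻¹ := by
    rw [diha_two hl, mul_inv_cancel_left, inv_pow]
  rw [Fintype.sum_sum_type, Fintype.sum_bool]
  change f (l 2 ^ q) + f (l 0 ^ q) + ∑ k : Fin q, f ((l 0 ^ (k : ℕ))⁻¹ * l 1 * l 0 ^ (k : ℕ)) = 0
  rw [Fin.sum_univ_eq_sum_range (fun k => f ((l 0 ^ k)⁻¹ * l 1 * l 0 ^ k)) q, h4,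
    hf.inv (mul_mem ha (hw q).1), hf.1 _ ha _ (hw q).1, (hw q).2]
  ring

/-- Hint: `K = {g ∈ U | ∀ k, f ((l 0 ^ k)⁻¹ * g * l 0 ^ k) = 0}`; the set of `g` with
`g * (l 0 ^ k)⁻¹ ∈ K` for some `k` is an open subgroup containing `l 0`, `l 1`, `l 2`. -/
theorem cy_gen (hl : IsBasis l) (hh : IsCh ⊤ h) (h0 : h (l 0) = 1) (h1 : h (l 1) = 0)
    (h2 : h (l 2) = -1) (hU : ∀ g, g ∈ U ↔ h g = 0) {f : G → ZMod 2} (hf : IsCh U f)
    (hz : ∀ x, f (cy l q x) = 0) {u : G} (hu : u ∈ U) : f u = 0 := by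
  have ha : l 0 ^ q ∈ U := cy_mem hh h0 h1 h2 hU (Sum.inl false)
  have hfa : f (l 0 ^ q) = 0 := hz (Sum.inl false)
  have hhz : ∀ z : ℤ, h (l 0 ^ z) = z := by
    intro z
    rw [diha_zpow hh (Subgroup.mem_top _), h0]
    simp
  have hadd : ∀ a b, h (a * b) = h a + h b := fun a b =>
    hh.1 a (Subgroup.mem_top _) b (Subgroup.mem_top _)
  have hpow : ∀ z : ℤ, l 0 ^ z ∈ U → f (l 0 ^ z) = 0 := by
    intro z hz'
    rw [hU, hhz, ZMod.intCast_zmod_eq_zero_iff_dvd] at hz'
    obtain ⟨t, rfl⟩ := hz'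
    rw [zpow_mul, zpow_natCast, diha_zpow hf ha, hfa, smul_zero]
  let S : Subgroup G :=
    { carrier := {g | ∀ i j : ℤ, l 0 ^ i * g * l 0 ^ j ∈ U → f (l 0 ^ i * g * l 0 ^ j) = 0}
      one_mem' := fun i j hij => by
        rw [mul_one, ← zpow_add] at hij ⊢
        exact hpow _ hij
      mul_mem' := fun {g g'} hg hg' i j hij => by
        obtain ⟨t, ht⟩ := ZMod.intCast_surjective (-h (l 0 ^ i * g))
        have h3 : l 0 ^ i * g * l 0 ^ t ∈ U := by
          rw [hU, hadd, hhz, ht, add_neg_cancel]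
        have h4 : l 0 ^ i * (g * g') * l 0 ^ j =
            (l 0 ^ i * g * l 0 ^ t) * (l 0 ^ (-t) * g' * l 0 ^ j) := by group
        rw [h4] at hij ⊢
        have h5 := (Subgroup.mul_mem_cancel_left U h3).1 hij
        rw [hf.1 _ h3 _ h5, hg i t h3, hg' (-t) j h5, add_zero]
      inv_mem' := fun {g} hg i j hij => by
        have h4 : l 0 ^ i * g⁻¹ * l 0 ^ j = (l 0 ^ (-j) * g * l 0 ^ (-i))⁻¹ := by group
        rw [h4] at hij ⊢
        have h5 := (Subgroup.inv_mem_iff U).1 hij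
        rw [hf.inv h5, hg _ _ h5, neg_zero] }
  have hS : ∀ g, (∀ i : ℤ, l 0 ^ i * g * (l 0 ^ i)⁻¹ ∈ U ∧ f (l 0 ^ i * g * (l 0 ^ i)⁻¹) = 0) →
      g ∈ S := by
    intro g hg i j hij
    have h4 : l 0 ^ i * g * l 0 ^ j = (l 0 ^ i * g * (l 0 ^ i)⁻¹) * l 0 ^ (i + j) := by group
    rw [h4] at hij ⊢
    have h5 := (Subgroup.mul_mem_cancel_left U (hg i).1).1 hij
    rw [hf.1 _ (hg i).1 _ h5, (hg i).2, hpow _ h5, add_zero]
  have hS0 : l 0 ∈ S := by
    intro i j hij
    have h4 : l 0 ^ i * l 0 * l 0 ^ j = l 0 ^ (i + 1 + j) := by group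
    rw [h4] at hij ⊢
    exact hpow _ hij
  have hS1 : l 1 ∈ S := by
    apply hS
    intro i
    have hq : (0 : ℤ) < q := by exact_mod_cast Nat.pos_of_ne_zero (NeZero.ne q)
    obtain ⟨k, hk⟩ := Int.eq_ofNat_of_zero_le (Int.emod_nonneg (-i) hq.ne')
    have hk' : k < q := by
      have := Int.emod_lt_of_pos (-i) hq
      omega
    have h3 : i = (q : ℤ) * (-(-i / q)) + -(k : ℤ) := by
      have := Int.emod_add_mul_ediv (-i) q
      rw [← hk]
      linarith
    have h4 : (l 0 ^ k)⁻¹ * l 1 * l 0 ^ k ∈ U := cy_mem hh h0 h1 h2 hU (Sum.inr ⟨k, hk'⟩)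
    have h5 : f ((l 0 ^ k)⁻¹ * l 1 * l 0 ^ k) = 0 := hz (Sum.inr ⟨k, hk'⟩)
    generalize -(-i / q) = t at h3
    have h6 : (l 0 ^ q) ^ t ∈ U := zpow_mem ha t
    have h7 : l 0 ^ i * l 1 * (l 0 ^ i)⁻¹ =
        (l 0 ^ q) ^ t * ((l 0 ^ k)⁻¹ * l 1 * l 0 ^ k) * ((l 0 ^ q) ^ t)⁻¹ := by
      rw [h3, zpow_add, zpow_mul, zpow_natCast, zpow_neg, zpow_natCast]
      generalize (l 0 ^ q) ^ t = s
      generalize l 0 ^ k = r
      group
    rw [h7]
    exact ⟨mul_mem (mul_mem h6 h4) (inv_mem h6), by rw [hf.conj h4 h6, h5]⟩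
  have htop : S = ⊤ := by
    apply hl.eq_top_of_isOpen
    · obtain ⟨N, hN⟩ := hf.2
      refine Subgroup.isOpen_mono (H₁ := N.toSubgroup) ?_ N.isOpen'
      intro g hg
      exact hS g fun i => hN _ (N.isNormal'.conj_mem g hg _)
    · intro i
      fin_cases i
      · exact hS0
      · exact hS1
      · change l 2 ∈ S
        rw [diha_two hl]
        exact inv_mem (mul_mem hS0 hS1)
  have h3 : u ∈ S := by rw [htop]; exact Subgroup.mem_top u
  have h4 := h3 0 0
  rw [zpow_zero, one_mul, mul_one] at h4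
  exact h4 hu

/-- Hint: `exists_cocycle` with `a ω 0`, `a ω 1` arbitrary and `a ω 2` forced; the cosets are
`l 0 ^ k`, `k < q`; `cocycle_conj_pow`; the value at `l 2 ^ q` follows from `cy_sum`. -/
theorem cy_surj (hl : IsBasis l) (hh : IsCh ⊤ h) (h0 : h (l 0) = 1) (h1 : h (l 1) = 0)
    (h2 : h (l 2) = -1) (hU : ∀ g, g ∈ U ↔ h g = 0) (b : Bool ⊕ Fin q → ZMod 2)
    (hb : ∑ x, b x = 0) : ∃ f : G → ZMod 2, IsCh U f ∧ ∀ x, f (cy l q x) = b x := by
  have hopen : IsOpen (U : Set G) := by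
    obtain ⟨N, hN⟩ := hh.2
    exact Subgroup.isOpen_mono (H₁ := N.toSubgroup) (fun g hg => (hU g).2 (hN g hg).2) N.isOpen'
  have hι : ∀ g : G, h (g : G ⧸ U).out = h g := by
    intro g
    obtain ⟨u, hu⟩ := QuotientGroup.mk_out_eq_mul U g
    rw [hu, hh.1 _ (Subgroup.mem_top _) _ (Subgroup.mem_top _), (hU _).1 u.2, add_zero]
  have hp : ∀ j : ℕ, h (l 0 ^ j) = j := by
    intro j
    rw [hh.pow (Subgroup.mem_top _), h0]
    simp
  let a0 : G ⧸ U → ZMod 2 := fun ω => if h ω.out = 0 then b (Sum.inl false) else 0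
  let a1 : G ⧸ U → ZMod 2 := fun ω => b (Sum.inr ⟨(h ω.out).val, ZMod.val_lt _⟩)
  obtain ⟨c, hc1, hc2, hc3⟩ := exists_cocycle (k := ZMod 2) hl hopen
    (fun ω => ![a0 ω, a1 ω, -(a0 (tl l 0 • ω) + a1 (tl l 1 • ω))]) fun ω => by
      have h3 : tl l 2 = 1 := rfl
      rw [Fin.sum_univ_three, h3, one_smul]
      exact add_neg_cancel _
  have hf := isCh_cocycle hc1 hc3
  have e0 : c (cy l q (Sum.inl false)) ((1 : G) : G ⧸ U) = b (Sum.inl false) := by
    have h3 : cy l q (Sum.inl false) = (1 : G)⁻¹ * l 0 ^ q * 1 := by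
      rw [inv_one, one_mul, mul_one]
      rfl
    have h4 := cy_mem hh h0 h1 h2 hU (Sum.inl false)
    rw [h3] at h4 ⊢
    have h5 : ∀ j : ℕ, c (l 0) (l 0 ^ j • ((1 : G) : G ⧸ U)) =
        if (j : ZMod q) = 0 then b (Sum.inl false) else 0 := by
      intro j
      rw [hc2]
      change (if h ((l 0 ^ j * 1 : G) : G ⧸ U).out = 0 then b (Sum.inl false) else 0) = _
      rw [hι, mul_one, hp]
    rw [cocycle_conj_pow hc1 _ _ _ h4, Finset.sum_eq_single 0, h5, if_pos Nat.cast_zero]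
    · intro j hj hj0
      rw [h5, if_neg]
      rw [ZMod.natCast_eq_zero_iff]
      exact fun h6 => hj0 (Nat.eq_zero_of_dvd_of_lt h6 (Finset.mem_range.1 hj))
    · intro h6
      exact absurd (Finset.mem_range.2 (Nat.pos_of_ne_zero (NeZero.ne q))) h6
  have e1 : ∀ k : Fin q, c (cy l q (Sum.inr k)) ((1 : G) : G ⧸ U) = b (Sum.inr k) := by
    intro k
    have h3 : cy l q (Sum.inr k) = (l 0 ^ (k : ℕ))⁻¹ * l 1 ^ 1 * l 0 ^ (k : ℕ) := by
      rw [pow_one]
      rfl
    have h4 := cy_mem hh h0 h1 h2 hU (Sum.inr k)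
    rw [h3] at h4 ⊢
    rw [cocycle_conj_pow hc1 _ _ _ h4, Finset.sum_range_one, pow_zero, one_smul, hc2]
    change b (Sum.inr ⟨(h ((l 0 ^ (k : ℕ) : G) : G ⧸ U).out).val, _⟩) = _
    congr 2
    apply Fin.ext
    change (h ((l 0 ^ (k : ℕ) : G) : G ⧸ U).out).val = k
    rw [hι, hp, ZMod.val_natCast_of_lt k.2]
  refine ⟨_, hf, fun x => ?_⟩
  rcases x with x | k
  · cases x
    · exact e0
    · have h3 := cy_sum hl hh h0 h1 h2 hU hf
      rw [Fintype.sum_sum_type, Fintype.sum_bool] at h3 hb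
      simp only [e0, e1] at h3
      exact add_right_cancel (add_right_cancel (h3.trans hb.symm))
  · exact e1 k

end cover

end Pool.Agent.MP_1c2b6e_al
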