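import Pool.Agent.MP_1c2b6e_al.Pow

/-! The groups of the problem in genus zero. -/

namespace Pool.Agent.MP_1c2b6e_al

/-- The group with generators `l_1, ..., l_n` and the single relation `l_1 ... l_n = 1`. -/
abbrev Surf (n : ℕ) : Type :=
  PresentedGroup ({(List.ofFn (FreeGroup.of : Fin n → FreeGroup (Fin n))).prod} :
    Set (FreeGroup (Fin n)))

/-- The profinite completion of `Surf n`. -/
abbrev SurfHat (n : ℕ) : ProfiniteGrp :=
  ProfiniteGrp.ProfiniteCompletion.completion (GrpCat.of (Surf n))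

/-- The generators `l_i` in the profinite completion. -/
def gen (n : ℕ) (i : Fin n) : SurfHat n :=
  ProfiniteGrp.ProfiniteCompletion.etaFn (GrpCat.of (Surf n)) (PresentedGroup.of i)

variable {G : Type} [Group G] [TopologicalSpace G] [IsTopologicalGroup G] [CompactSpace G]
  [TotallyDisconnectedSpace G] {n : ℕ}

/-- `φ` is continuous and sends every `l_i` to a conjugate of `l_(σ i) ^ a`. -/
def HasChar (l : Fin n → G) (φ : MulAut G) (a : ZU) : Prop :=
  Continuous φ ∧ ∃ σ : Equiv.Perm (Fin n), ∀ i, ∃ α y : G,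
    IsPow (l (σ i)) (a : Zhat) y ∧ φ (l i) = α * y * α⁻¹

theorem HasChar.one (l : Fin n → G) : HasChar l 1 1 :=
  ⟨continuous_id, 1, fun i => ⟨1, l i, isPow_iff.2 (pw_one _).symm, by simp⟩⟩

theorem HasChar.mul {l : Fin n → G} {φ ψ : MulAut G} {a b : Zhatˣ} (hφ : HasChar l φ a)
    (hψ : HasChar l ψ b) : HasChar l (φ * ψ) (a * b) := by
  obtain ⟨c1, σ, h1⟩ := hφ
  obtain ⟨c2, τ, h2⟩ := hψ
  refine ⟨c1.comp c2, σ * τ, fun i => ?_⟩
  obtain ⟨β, z, hz, e2⟩ := h2 i
  obtain ⟨α, y, hy, e1⟩ := h1 (τ i)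
  rw [isPow_iff] at hy hz
  refine ⟨φ β * α, _, isPow_iff.2 rfl, ?_⟩
  rw [MulAut.mul_apply, e2, map_mul, map_mul, map_inv, hz, map_pw_aut φ c1, e1, pw_conj, hy,
    Units.val_mul, pw_mul]
  simp only [Equiv.Perm.mul_apply]
  group

theorem HasChar.inv {l : Fin n → G} {φ : MulAut G} {a : Zhatˣ} (hφ : HasChar l φ a) :
    HasChar l φ⁻¹ a⁻¹ := by
  obtain ⟨c1, σ, h1⟩ := hφ
  have c2 := continuous_inv_aut φ c1
  refine ⟨c2, σ⁻¹, fun i => ?_⟩
  obtain ⟨α, y, hy, e1⟩ := h1 (σ⁻¹ i)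
  rw [isPow_iff] at hy
  refine ⟨(φ⁻¹ α)⁻¹, _, isPow_iff.2 rfl, ?_⟩
  have e2 : φ (pw (l (σ⁻¹ i)) (a⁻¹ : Zhatˣ)) = α * l i * α⁻¹ := by
    rw [map_pw_aut φ c1, e1, pw_conj, hy, ← pw_mul, Units.mul_inv, pw_one]
    simp
  have e3 := congrArg (φ⁻¹ : MulAut G) e2
  rw [MulAut.inv_apply_self, map_mul, map_mul, map_inv] at e3
  rw [e3]
  group

/-- `φ` has some cyclotomic character. -/
def InS (l : Fin n → G) (φ : MulAut G) : Prop := ∃ a : ZU, HasChar l φ a

/-- `φ` has cyclotomic character `1`. -/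
def IsPlus (l : Fin n → G) (φ : MulAut G) : Prop := HasChar l φ 1

/-- The group of continuous automorphisms permuting the `l_i` up to conjugacy and a power. -/
def frakS (l : Fin n → G) : Subgroup (MulAut G) where
  carrier := {φ | InS l φ}
  one_mem' := ⟨1, HasChar.one l⟩
  mul_mem' := fun ⟨_, ha⟩ ⟨_, hb⟩ => ⟨_, ha.mul hb⟩
  inv_mem' := fun ⟨_, ha⟩ => ⟨_, ha.inv⟩

/-- The elements with cyclotomic character `1`. -/
def plusS (l : Fin n → G) : Subgroup (MulAut G) where
  carrier := {φ | IsPlus l φ}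
  one_mem' := HasChar.one l
  mul_mem' := fun ha hb => by simpa [IsPlus] using HasChar.mul ha hb
  inv_mem' := fun ha => by simpa [IsPlus] using HasChar.inv ha

/-- The elements of `frakS l` that map the discretification generated by the `l_i` onto itself. -/
def discS (l : Fin n → G) : Subgroup (MulAut G) where
  carrier := {φ | φ ∈ frakS l ∧
    (Subgroup.closure (Set.range l)).map φ.toMonoidHom = Subgroup.closure (Set.range l)}
  one_mem' := ⟨one_mem _, Subgroup.map_id _⟩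
  mul_mem' := fun {φ ψ} ha hb => ⟨mul_mem ha.1 hb.1, by
    have : (φ * ψ).toMonoidHom = φ.toMonoidHom.comp ψ.toMonoidHom := rfl
    rw [this, ← Subgroup.map_map, hb.2, ha.2]⟩
  inv_mem' := fun {φ} ha => ⟨inv_mem ha.1, by
    have : (φ⁻¹).toMonoidHom.comp φ.toMonoidHom = MonoidHom.id G :=
      MonoidHom.ext fun x => φ.symm_apply_apply x
    conv_lhs => rw [← ha.2, Subgroup.map_map, this, Subgroup.map_id]⟩

/-- The closure of `discS l` in `frakS l` for the congruence topology. -/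
def closS (l : Fin n → G) : Subgroup (MulAut G) where
  carrier := {φ | φ ∈ frakS l ∧
    ∀ N : OpenNormalSubgroup G, ∃ ψ ∈ discS l, ∀ g, (φ g)⁻¹ * ψ g ∈ N}
  one_mem' := ⟨one_mem _, fun N => ⟨1, one_mem _, fun g => by simp⟩⟩
  mul_mem' := fun {φ φ'} ha hb => ⟨mul_mem ha.1 hb.1, fun N => by
    obtain ⟨_, c, -⟩ := ha.1
    obtain ⟨ψ, h1, h2⟩ := ha.2 N
    obtain ⟨ψ', h3, h4⟩ := hb.2 (pre φ.toMonoidHom c N)
    refine ⟨ψ * ψ', mul_mem h1 h3, fun g => (pr_eq_iff N _ _).1 ?_⟩
    exact ((pr_pre φ.toMonoidHom c N).1 ((pr_eq_iff _ _ _).2 (h4 g))).trans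
      ((pr_eq_iff N _ _).2 (h2 (ψ' g)))⟩
  inv_mem' := fun {φ} ha => ⟨inv_mem ha.1, fun N => by
    obtain ⟨_, c, -⟩ := inv_mem ha.1
    obtain ⟨ψ, h1, h2⟩ := ha.2 (pre (φ⁻¹).toMonoidHom c N)
    refine ⟨ψ⁻¹, inv_mem h1, fun g => (pr_eq_iff N _ _).1 ?_⟩
    have h3 := (pr_pre (φ⁻¹).toMonoidHom c N).1 ((pr_eq_iff _ _ _).2 (h2 (ψ⁻¹ g)))
    simpa using h3.symm⟩

/-- The inner automorphisms, as a subgroup of `frakS l`. -/
def innS (l : Fin n → G) : Subgroup (frakS l) :=
  (MulAut.conj : G →* MulAut G).range.subgroupOf (frakS l)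

instance innS_normal (l : Fin n → G) : (innS l).Normal := by
  refine Subgroup.Normal.subgroupOf ⟨?_⟩ _
  rintro _ ⟨g, rfl⟩ φ
  exact ⟨φ g, by ext x; simp⟩

/-- The quotient of `frakS l` by the inner automorphisms. -/
def frakT (l : Fin n → G) : Type := frakS l ⧸ innS l

instance frakTGrp (l : Fin n → G) : Group (frakT l) := QuotientGroup.Quotient.group (innS l)

/-- The projection to the quotient by the inner automorphisms. -/
def toT (l : Fin n → G) : frakS l →* frakT l := QuotientGroup.mk' (innS l)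

/-- The group `Σ`: the image in `frakT l` of the elements of `closS l` with character `1`. -/
def Sigma (l : Fin n → G) : Subgroup (frakT l) :=
  ((closS l ⊓ plusS l).subgroupOf (frakS l)).map (toT l)

/-- `l` is a basis: the image of the generators under an isomorphism from `SurfHat n`. -/
def IsStdBasis (l : Fin n → G) : Prop := ∃ e : SurfHat n ≃ₜ* G, ∀ i, l i = e (gen n i)

/-- The normaliser of a subgroup `S`. -/
abbrev Nor {T : Type} [Group T] (S : Subgroup T) : Subgroup T := Subgroup.normalizer (S : Set T)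

/-- The quotient of the normaliser of `S` by `S`. -/
def NQuot {T : Type} [Group T] (S : Subgroup T) : Type := Nor S ⧸ S.subgroupOf (Nor S)

instance nquotGrp {T : Type} [Group T] (S : Subgroup T) : Group (NQuot S) :=
  QuotientGroup.Quotient.group (S.subgroupOf (Nor S))

/-- The projection from the normaliser of `S` to its quotient by `S`. -/
def toQ {T : Type} [Group T] (S : Subgroup T) : Nor S →* NQuot S :=
  QuotientGroup.mk' (S.subgroupOf (Nor S))

/-- `s` lies in the normaliser of `S` and maps to `x` in the quotient. -/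
def Lifts {T : Type} [Group T] (S : Subgroup T) (s : T) (x : NQuot S) : Prop :=
  ∃ h : s ∈ Nor S, toQ S ⟨s, h⟩ = x

/-- The class of `φ` modulo inner automorphisms lies in `N_Σ` and maps to `x` in `N_Σ / Σ`. -/
def Represents (l : Fin n → G) (φ : frakS l) (x : NQuot (Sigma l)) : Prop :=
  Lifts (Sigma l) (QuotientGroup.mk φ) x

end Pool.Agent.MP_1c2b6e_al
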