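import Pool.Agent.MP_1c2b6e_al.Zhat

/-! Arithmetic of `Zhat`, compactness lemmas for profinite groups, and the function `pw`. -/

namespace Pool.Agent.MP_1c2b6e_al

/-- The residue of a profinite integer modulo `m`. -/
def res (m : ℕ) [NeZero m] : Zhat →+* ZMod m where
  toFun a := a.1 ⟨m, NeZero.pos m⟩
  map_one' := rfl
  map_mul' _ _ := rfl
  map_zero' := rfl
  map_add' _ _ := rfl

theorem zhat_ext {a b : Zhat} (h : ∀ (m : ℕ) [NeZero m], res m a = res m b) : a = b := by
  refine Subtype.ext (funext fun n => ?_)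
  have : NeZero (n : ℕ) := ⟨n.ne_zero⟩
  exact h n

theorem res_cast {m n : ℕ} [NeZero m] [NeZero n] (h : m ∣ n) (a : Zhat) :
    ZMod.castHom h (ZMod m) (res n a) = res m a :=
  a.2 ⟨m, NeZero.pos m⟩ ⟨n, NeZero.pos n⟩ h

theorem arith_val_cast {m n : ℕ} [NeZero m] [NeZero n] (h : m ∣ n) (a : Zhat) :
    (((res n a).val : ℕ) : ZMod m) = res m a := by
  rw [← res_cast h a, ZMod.castHom_apply, ZMod.cast_eq_val]

/-- `Zhat` is torsion free. Hint: look at the residue mod `k * m`. -/
theorem zhat_eq_zero {k : ℕ} (hk : k ≠ 0) {a : Zhat} (h : (k : Zhat) * a = 0) : a = 0 := by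
  refine zhat_ext fun m _ => ?_
  have : NeZero (k * m) := ⟨mul_ne_zero hk (NeZero.ne m)⟩
  have h1 := congrArg (res (k * m)) h
  rw [map_mul, map_natCast, map_zero, ← ZMod.natCast_zmod_val (res (k * m) a), ← Nat.cast_mul,
    ZMod.natCast_eq_zero_iff] at h1
  have h2 : m ∣ (res (k * m) a).val := Nat.dvd_of_mul_dvd_mul_left (Nat.pos_of_ne_zero hk) h1
  rw [map_zero, ← arith_val_cast (Dvd.intro_left k rfl : m ∣ k * m) a, ZMod.natCast_eq_zero_iff]
  exact h2

theorem arith_dvd_val {k m : ℕ} [NeZero k] [NeZero (k * m)] {a : Zhat} (h : res k a = 0) :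
    k ∣ (res (k * m) a).val := by
  rw [← ZMod.natCast_eq_zero_iff, arith_val_cast (Dvd.intro m rfl : k ∣ k * m) a, h]

/-- Hint: `b mod m := ((res (k * m) a).val / k : ℕ)`. -/
theorem zhat_dvd {k : ℕ} [NeZero k] {a : Zhat} (h : res k a = 0) : ∃ b, a = (k : Zhat) * b := by
  have hne : ∀ m : ℕ+, NeZero (k * (m : ℕ)) := fun m => ⟨mul_ne_zero (NeZero.ne k) m.ne_zero⟩
  refine ⟨⟨fun m => (((res (k * (m : ℕ)) a).val / k : ℕ) : ZMod m), fun m n hmn => ?_⟩, ?_⟩
  · rw [map_natCast, ZMod.natCast_eq_natCast_iff]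
    obtain ⟨x, hx⟩ := arith_dvd_val (m := n) h
    obtain ⟨y, hy⟩ := arith_dvd_val (m := m) h
    have h1 := arith_val_cast (Nat.mul_dvd_mul_left k hmn) a
    rw [← ZMod.natCast_zmod_val (res (k * (m : ℕ)) a), ZMod.natCast_eq_natCast_iff, hx, hy] at h1
    rw [hx, hy, Nat.mul_div_cancel_left _ (NeZero.pos k), Nat.mul_div_cancel_left _ (NeZero.pos k)]
    exact Nat.ModEq.mul_left_cancel' (NeZero.ne k) h1
  · refine zhat_ext fun m _ => ?_
    have := hne ⟨m, NeZero.pos m⟩
    have : NeZero (k * m) := this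
    rw [map_mul, map_natCast]
    change res m a = (k : ZMod m) * (((res (k * m) a).val / k : ℕ) : ZMod m)
    rw [← Nat.cast_mul, Nat.mul_div_cancel' (arith_dvd_val h),
      arith_val_cast (Dvd.intro_left k rfl : m ∣ k * m) a]

theorem arith_sum_range {p : ℕ} [Fact p.Prime] (h2 : p ≠ 2) :
    ∑ i ∈ Finset.range p, (i : ZMod p) = 0 := by
  have h1 := congrArg (Nat.cast : ℕ → ZMod p) (Finset.sum_range_id_mul_two p)
  rw [Nat.cast_mul, Nat.cast_mul, ZMod.natCast_self, zero_mul, Nat.cast_sum] at h1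
  refine (mul_eq_zero.1 h1).resolve_right fun h3 => h2 ?_
  rw [ZMod.natCast_eq_zero_iff] at h3
  exact (Nat.prime_dvd_prime_iff_eq Fact.out Nat.prime_two).1 h3

/-- Hint: `1 + a + ... + a^(p-1) = p * v` (Fermat gives `res p a = 1`); `(a - 1) * p * v = 0`;
`v` is not divisible by `p`: write `a = 1 + p * c` and compute mod `p^2` (mod 4 if `p = 2`). -/
theorem exists_nu {p : ℕ} [Fact p.Prime] {a : Zhat} (h : a ^ p = 1) (h2 : p = 2 → res 4 a = 1) :
    ∃ v : Zhat, res p v ≠ 0 ∧ a * v = v := by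
  have hp : p.Prime := Fact.out
  have h1 : res p a = 1 := by
    have := congrArg (res p) h
    rwa [map_pow, map_one, ZMod.pow_card] at this
  obtain ⟨c, hc⟩ := zhat_dvd (k := p) (a := a - 1) (by rw [map_sub, h1, map_one, sub_self])
  have hv : (p : Zhat) * (1 + c * ∑ i ∈ Finset.range p, ∑ j ∈ Finset.range i, a ^ j) =
      ∑ i ∈ Finset.range p, a ^ i := by
    rw [mul_add, mul_one, ← mul_assoc, ← hc, Finset.mul_sum]
    simp only [mul_geom_sum]
    rw [Finset.sum_sub_distrib]
    simp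
  refine ⟨1 + c * ∑ i ∈ Finset.range p, ∑ j ∈ Finset.range i, a ^ j, ?_, ?_⟩
  · have h3 : res p (c * ∑ i ∈ Finset.range p, ∑ j ∈ Finset.range i, a ^ j) = 0 := by
      rw [map_mul]
      by_cases hp2 : p = 2
      · have h4 := h2 hp2
        subst hp2
        obtain ⟨d, hd⟩ := zhat_dvd (k := 4) (a := a - 1) (by rw [map_sub, h4, map_one, sub_self])
        have h5 : c - 2 * d = 0 := by
          refine zhat_eq_zero (k := 2) two_ne_zero ?_
          rw [mul_sub, ← hc, hd]
          push_cast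
          ring
        have h6 : res 2 c = 0 := by
          rw [sub_eq_zero.1 h5, map_mul, map_ofNat]
          exact mul_eq_zero_of_left rfl _
        rw [h6, zero_mul]
      · have h7 : res p (∑ i ∈ Finset.range p, ∑ j ∈ Finset.range i, a ^ j) = 0 := by
          simp only [map_sum, map_pow, h1, one_pow, Finset.sum_const, Finset.card_range,
            nsmul_eq_mul, mul_one]
          exact arith_sum_range hp2
        rw [h7, mul_zero]
    rw [map_add, h3, map_one, add_zero]
    exact one_ne_zero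
  · rw [← sub_eq_zero]
    refine zhat_eq_zero hp.ne_zero ?_
    have h8 := mul_geom_sum a p
    rw [h, sub_self, ← hv] at h8
    linear_combination h8

theorem arith_isUnit {v : Zhat} (hv : ∀ (q : ℕ) [Fact q.Prime], res q v ≠ 0) (m : ℕ) [NeZero m] :
    IsUnit (res m v) := by
  rw [← ZMod.natCast_zmod_val (res m v), ZMod.isUnit_iff_coprime]
  refine Nat.coprime_of_dvd fun q hq h1 h2 => ?_
  have : Fact q.Prime := ⟨hq⟩
  refine hv q ?_
  rw [← arith_val_cast h2 v, ZMod.natCast_eq_zero_iff]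
  exact h1

/-- Hint: `a - 1 = 2 * v` with `res q v ≠ 0` for every prime `q`, so `res m v` is a unit for every
`m`; `2 * v * (a + 1) = 0`. -/
theorem eq_neg_one_of_sq {a : Zhat} (h : a ^ 2 = 1) (h4 : res 4 a = -1)
    (hl : ∀ (q : ℕ) [Fact q.Prime], q ≠ 2 → res q a ≠ 1) : a = -1 := by
  have h1 : res 2 a = 1 := by
    rw [← res_cast (by norm_num : 2 ∣ 4) a, h4, map_neg, map_one]
    rfl
  obtain ⟨v, hv⟩ := zhat_dvd (k := 2) (a := a - 1) (by rw [map_sub, h1, map_one, sub_self])
  have h2 : ∀ (q : ℕ) [Fact q.Prime], res q v ≠ 0 := by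
    intro q _ h3
    by_cases hq : q = 2
    · subst hq
      obtain ⟨w, hw⟩ := zhat_dvd h3
      have h5 : a = 1 + ((4 : ℕ) : Zhat) * w := by
        rw [hw] at hv
        push_cast at hv ⊢
        linear_combination hv
      rw [h5, map_add, map_one, map_mul, map_natCast, ZMod.natCast_self, zero_mul, add_zero] at h4
      exact absurd h4 (by decide)
    · refine hl q hq ?_
      have h6 := congrArg (res q) hv
      rwa [map_mul, h3, mul_zero, map_sub, map_one, sub_eq_zero] at h6
  have h7 : v * (a + 1) = 0 := by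
    refine zhat_eq_zero (k := 2) two_ne_zero ?_
    rw [← mul_assoc, ← hv]
    linear_combination h
  rw [← add_eq_zero_iff_eq_neg]
  refine zhat_ext fun m _ => ?_
  have h8 := congrArg (res m) h7
  rw [map_mul, map_zero] at h8
  rw [map_zero]
  exact (arith_isUnit h2 m).mul_right_eq_zero.1 h8

theorem res_four_unit (a : Zhatˣ) : res 4 (a : Zhat) = 1 ∨ res 4 (a : Zhat) = -1 := by
  have h1 := congrArg (res 4) a.mul_inv
  rw [map_mul, map_one] at h1
  have h2 : ∀ x y : ZMod 4, x * y = 1 → x = 1 ∨ x = -1 := by decide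
  exact h2 _ _ h1

/-- An integer that is a unit of `Zhat` is `1` or `-1`. -/
theorem int_unit {k : ℤ} {a : Zhatˣ} (h : (a : Zhat) = (k : Zhat)) : k = 1 ∨ k = -1 := by
  rw [← Int.isUnit_iff, Int.isUnit_iff_natAbs_eq]
  by_contra h1
  obtain ⟨q, hq, h2⟩ := Nat.exists_prime_and_dvd h1
  have : Fact q.Prime := ⟨hq⟩
  have h3 := congrArg (res q) a.mul_inv
  rw [map_mul, map_one, h, map_intCast, (ZMod.intCast_zmod_eq_zero_iff_dvd k q).2
    (Int.natCast_dvd.2 h2), zero_mul] at h3
  exact zero_ne_one h3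

end Pool.Agent.MP_1c2b6e_al

/-! Compactness lemmas for profinite groups and the function `pw`. -/

namespace Pool.Agent.MP_1c2b6e_al


variable {G : Type} [Group G] [TopologicalSpace G]

instance nonempty_ons : Nonempty (OpenNormalSubgroup G) :=
  ⟨⟨⊤, (inferInstance : (⊤ : Subgroup G).Normal)⟩⟩

/-- Projection to the quotient by an open normal subgroup. -/
def pr (N : OpenNormalSubgroup G) : G →* G ⧸ N.toSubgroup := QuotientGroup.mk' _

theorem pr_eq_iff (N : OpenNormalSubgroup G) (a b : G) : pr N a = pr N b ↔ a⁻¹ * b ∈ N :=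
  QuotientGroup.eq

theorem pr_eq_one_iff (N : OpenNormalSubgroup G) (a : G) : pr N a = 1 ↔ a ∈ N :=
  QuotientGroup.eq_one_iff a

theorem pr_mono {N M : OpenNormalSubgroup G} (h : N ≤ M) {a b : G} (hab : pr N a = pr N b) :
    pr M a = pr M b :=
  (pr_eq_iff M a b).2 (h ((pr_eq_iff N a b).1 hab))

/-- Preimage of an open normal subgroup under a continuous homomorphism. -/
def pre {H : Type} [Group H] [TopologicalSpace H] (h : G →* H) (hc : Continuous h)
    (M : OpenNormalSubgroup H) : OpenNormalSubgroup G where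
  toSubgroup := M.toSubgroup.comap h
  isOpen' := M.isOpen'.preimage hc
  isNormal' := M.isNormal'.comap h

theorem pr_pre {H : Type} [Group H] [TopologicalSpace H] (h : G →* H) (hc : Continuous h)
    (M : OpenNormalSubgroup H) {a b : G} :
    pr (pre h hc M) a = pr (pre h hc M) b ↔ pr M (h a) = pr M (h b) := by
  rw [pr_eq_iff, pr_eq_iff, ← map_inv, ← map_mul]
  rfl

/-- The kernel of a homomorphism with open kernel, as an open normal subgroup. -/
def kerN {Q : Type} [Group Q] (h : G →* Q) (ho : IsOpen (h.ker : Set G)) :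
    OpenNormalSubgroup G where
  toSubgroup := h.ker
  isOpen' := ho
  isNormal' := inferInstance

theorem pr_kerN {Q : Type} [Group Q] (h : G →* Q) (ho : IsOpen (h.ker : Set G)) {a b : G} :
    pr (kerN h ho) a = pr (kerN h ho) b ↔ h a = h b := by
  rw [pr_eq_iff]
  change a⁻¹ * b ∈ h.ker ↔ _
  rw [MonoidHom.mem_ker, map_mul, map_inv, inv_mul_eq_one]

theorem pow_res_dvd {Q : Type} [Group Q] {g : Q} {m n : ℕ} [NeZero m] [NeZero n] (h : m ∣ n)
    (hm : g ^ m = 1) (a : Zhat) : g ^ (res n a).val = g ^ (res m a).val := by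
  rw [← res_cast h a, ZMod.castHom_apply, ZMod.cast_eq_val, ZMod.val_natCast, ← pow_eq_pow_mod _ hm]

theorem pow_res_eq {Q : Type} [Group Q] {g : Q} {m n : ℕ} [NeZero m] [NeZero n] (hm : g ^ m = 1)
    (hn : g ^ n = 1) (a : Zhat) : g ^ (res m a).val = g ^ (res n a).val := by
  rw [← pow_res_dvd (dvd_mul_right m n) hm, pow_res_dvd (dvd_mul_left n m) hn]

theorem pow_isPow {x y : G} {a : Zhat} : IsPow x a y ↔ ∀ (N : OpenNormalSubgroup G) (m : ℕ)
    [NeZero m], pr N x ^ m = 1 → pr N y = pr N x ^ (res m a).val := by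
  constructor
  · intro h N m _ hm
    rw [← map_pow, pr_eq_one_iff] at hm
    rw [← map_pow, pr_eq_iff]
    exact h N ⟨m, NeZero.pos m⟩ hm
  · intro h N m hm
    rw [← pr_eq_iff, map_pow]
    refine h N m ?_
    rwa [← map_pow, pr_eq_one_iff]

variable [IsTopologicalGroup G] [CompactSpace G] [TotallyDisconnectedSpace G]

instance finite_quot (N : OpenNormalSubgroup G) : Finite (G ⧸ N.toSubgroup) := by
  exact Subgroup.quotient_finite_of_isOpen _ N.isOpen'

instance pow_neZero (N : OpenNormalSubgroup G) : NeZero (Nat.card (G ⧸ N.toSubgroup)) :=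
  ⟨Nat.card_pos.ne'⟩

omit [IsTopologicalGroup G] [CompactSpace G] [TotallyDisconnectedSpace G] in
theorem pow_card (N : OpenNormalSubgroup G) (x : G) : pr N x ^ Nat.card (G ⧸ N.toSubgroup) = 1 :=
  pow_card_eq_one'

omit [IsTopologicalGroup G] [CompactSpace G] [TotallyDisconnectedSpace G] in
theorem pow_card_le {N M : OpenNormalSubgroup G} (h : M ≤ N) (x : G) :
    pr N x ^ Nat.card (G ⧸ M.toSubgroup) = 1 := by
  have h1 := pow_card M x
  rw [← map_pow, pr_eq_one_iff] at h1 ⊢
  exact h h1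

omit [CompactSpace G] [TotallyDisconnectedSpace G] in
theorem pow_isOpen (N : OpenNormalSubgroup G) (y : G) : IsOpen {g : G | pr N g = pr N y} :=
  (isOpen_discrete {pr N y}).preimage QuotientGroup.continuous_mk

theorem pow_mem_aux {S : Set G} (hS : IsClosed S) {a : G}
    (h : ∀ N : OpenNormalSubgroup G, ∃ b ∈ S, pr N a = pr N b) : a ∈ S := by
  by_contra ha
  have hU : IsOpen {g : G | a * g ∉ S} := hS.isOpen_compl.preimage (continuous_const_mul a)
  obtain ⟨N, hN⟩ := ProfiniteGrp.exist_openNormalSubgroup_sub_open_nhds_of_one hU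
    (by rwa [Set.mem_ofPred_eq, mul_one])
  obtain ⟨b, hb, hab⟩ := h N
  have h1 := hN ((pr_eq_iff N a b).1 hab)
  rw [Set.mem_ofPred_eq, mul_inv_cancel_left] at h1
  exact h1 hb

omit [IsTopologicalGroup G] [CompactSpace G] [TotallyDisconnectedSpace G] in
theorem isOpen_ker_pr (N : OpenNormalSubgroup G) : IsOpen ((pr N).ker : Set G) := by
  rw [pr, QuotientGroup.ker_mk']
  exact N.isOpen'

theorem eq_of_pr {a b : G} (h : ∀ N : OpenNormalSubgroup G, pr N a = pr N b) : a = b := by
  exact pow_mem_aux isClosed_singleton fun N => ⟨b, rfl, h N⟩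

theorem exists_le_of_isOpen (U : Subgroup G) (hU : IsOpen (U : Set G)) :
    ∃ N : OpenNormalSubgroup G, N.toSubgroup ≤ U := by
  exact ProfiniteGrp.exist_openNormalSubgroup_sub_open_nhds_of_one hU U.one_mem

omit [IsTopologicalGroup G] [CompactSpace G] [TotallyDisconnectedSpace G] in
theorem exists_le_finite {ι : Type} [Finite ι] (N : ι → OpenNormalSubgroup G) :
    ∃ M : OpenNormalSubgroup G, ∀ i, M ≤ N i := by
  exact Finite.exists_ge N

omit [TotallyDisconnectedSpace G] in
/-- Cluster points of a family indexed by the open normal subgroups of another group `H`. -/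
theorem exists_cluster {H : Type} [Group H] [TopologicalSpace H] {ι : Type} [Finite ι]
    (x : OpenNormalSubgroup H → ι → G) :
    ∃ y : ι → G, ∀ (N : OpenNormalSubgroup G) (M : OpenNormalSubgroup H),
      ∃ M' : OpenNormalSubgroup H, M' ≤ M ∧ ∀ i, pr N (x M' i) = pr N (y i) := by
  obtain ⟨y, hy⟩ := exists_clusterPt_of_compactSpace (Filter.map x Filter.atBot)
  refine ⟨y, fun N M => ?_⟩
  have h1 : {z : ι → G | ∀ i, pr N (z i) = pr N (y i)} ∈ nhds y := by
    refine IsOpen.mem_nhds ?_ fun _ => rfl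
    rw [Set.ofPred_forall]
    exact isOpen_iInter_of_finite fun i =>
      (pow_isOpen N (y i)).preimage (f := fun z : ι → G => z i) (continuous_apply i)
  exact Filter.frequently_atBot.1 (mapClusterPt_iff_frequently.1 hy _ h1) M

/-- An element approximated modulo every `N` by elements of a closed set lies in it. -/
theorem mem_of_pr {S : Set G} (hS : IsClosed S) {a : G}
    (h : ∀ N : OpenNormalSubgroup G, ∃ b ∈ S, pr N a = pr N b) : a ∈ S := by
  exact pow_mem_aux hS h

theorem exists_isPow (x : G) (a : Zhat) : ∃ y, IsPow x a y := by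
  obtain ⟨y, hy⟩ := exists_cluster (ι := Unit) fun (N : OpenNormalSubgroup G) _ =>
    x ^ (res (Nat.card (G ⧸ N.toSubgroup)) a).val
  refine ⟨y (), pow_isPow.2 fun N m _ hm => ?_⟩
  obtain ⟨M, h1, h2⟩ := hy N N
  rw [← h2 (), map_pow]
  exact pow_res_eq (pow_card_le h1 x) hm a

/-- The profinite power `x ^ a`. -/
noncomputable def pw (x : G) (a : Zhat) : G := (exists_isPow x a).choose

theorem isPow_iff {x y : G} {a : Zhat} : IsPow x a y ↔ y = pw x a := by
  have h : IsPow x a (pw x a) := (exists_isPow x a).choose_spec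
  refine ⟨fun hy => eq_of_pr fun N => ?_, fun hy => hy ▸ h⟩
  rw [pow_isPow.1 hy N _ (pow_card N x), pow_isPow.1 h N _ (pow_card N x)]

theorem pow_pr_pw (N : OpenNormalSubgroup G) (x : G) (a : Zhat) (m : ℕ) [NeZero m]
    (hm : pr N x ^ m = 1) : pr N (pw x a) = pr N x ^ (res m a).val :=
  pow_isPow.1 (isPow_iff.2 rfl) N m hm

/-- Image of a profinite power under a homomorphism with open kernel. -/
theorem map_pw_fin {Q : Type} [Group Q] (h : G →* Q) (ho : IsOpen (h.ker : Set G)) (x : G)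
    (a : Zhat) (m : ℕ) [NeZero m] (hm : h x ^ m = 1) : h (pw x a) = h x ^ (res m a).val := by
  have h1 : pr (kerN h ho) x ^ m = 1 := by
    rw [← map_pow, ← map_one (pr (kerN h ho)), pr_kerN, map_pow, hm, map_one]
  rw [← map_pow, ← pr_kerN h ho, map_pow]
  exact pow_pr_pw _ x a m h1

theorem map_pw {H : Type} [Group H] [TopologicalSpace H] [IsTopologicalGroup H] [CompactSpace H]
    [TotallyDisconnectedSpace H] (h : G →* H) (hc : Continuous h) (x : G) (a : Zhat) :
    h (pw x a) = pw (h x) a := by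
  refine isPow_iff.1 (pow_isPow.2 fun N m _ hm => ?_)
  refine map_pw_fin ((pr N).comp h) ?_ x a m hm
  exact (isOpen_ker_pr N).preimage hc

theorem map_pw_aut (φ : MulAut G) (hc : Continuous φ) (x : G) (a : Zhat) :
    φ (pw x a) = pw (φ x) a :=
  map_pw φ.toMonoidHom hc x a

theorem pw_conj (g x : G) (a : Zhat) : pw (g * x * g⁻¹) a = g * pw x a * g⁻¹ := by
  exact (map_pw_aut (MulAut.conj g) (by
    show Continuous fun y : G => g * y * g⁻¹
    fun_prop) x a).symm

theorem pw_add (x : G) (a b : Zhat) : pw x (a + b) = pw x a * pw x b := by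
  refine eq_of_pr fun N => ?_
  have h := pow_card N x
  rw [map_mul, pow_pr_pw N x _ _ h, pow_pr_pw N x _ _ h, pow_pr_pw N x _ _ h, map_add, ZMod.val_add,
    ← pow_add, ← pow_eq_pow_mod _ h]

theorem pw_mul (x : G) (a b : Zhat) : pw x (a * b) = pw (pw x a) b := by
  refine eq_of_pr fun N => ?_
  have h := pow_card N x
  rw [pow_pr_pw N x _ _ h, pow_pr_pw N _ _ _ (pow_card N (pw x a)), pow_pr_pw N x _ _ h, map_mul,
    ZMod.val_mul, ← pow_mul, ← pow_eq_pow_mod _ h]

theorem pw_natCast (x : G) (k : ℕ) : pw x (k : Zhat) = x ^ k := by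
  refine eq_of_pr fun N => ?_
  have h := pow_card N x
  rw [pow_pr_pw N x _ _ h, map_natCast, ZMod.val_natCast, map_pow, ← pow_eq_pow_mod _ h]

theorem pw_zero (x : G) : pw x 0 = 1 := by
  simpa using pw_natCast x 0

theorem pw_one (x : G) : pw x 1 = x := by
  simpa using pw_natCast x 1

theorem pw_neg (x : G) (a : Zhat) : pw x (-a) = (pw x a)⁻¹ := by
  rw [eq_inv_iff_mul_eq_one, ← pw_add, neg_add_cancel, pw_zero]

theorem pw_intCast (x : G) (k : ℤ) : pw x (k : Zhat) = x ^ k := by
  obtain ⟨n, rfl | rfl⟩ := k.eq_nat_or_neg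
  · rw [Int.cast_natCast, pw_natCast, zpow_natCast]
  · rw [Int.cast_neg, pw_neg, Int.cast_natCast, pw_natCast, zpow_neg, zpow_natCast]

theorem one_pw (a : Zhat) : pw (1 : G) a = 1 := by
  refine eq_of_pr fun N => ?_
  rw [pow_pr_pw N 1 _ _ (pow_card N 1), map_one, one_pow]

theorem pw_mem {S : Subgroup G} (hS : IsClosed (S : Set G)) {x : G} (hx : x ∈ S) (a : Zhat) :
    pw x a ∈ S := by
  refine mem_of_pr hS fun N => ⟨x ^ (res (Nat.card (G ⧸ N.toSubgroup)) a).val, S.pow_mem hx _, ?_⟩
  rw [pow_pr_pw N x _ _ (pow_card N x), map_pow]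

theorem commute_pw {g x : G} (h : Commute g x) (a : Zhat) : Commute g (pw x a) := by
  have h1 := pw_conj g x a
  rw [h.eq, mul_inv_cancel_right, eq_mul_inv_iff_mul_eq] at h1
  exact h1.symm

/-- Modulo `N` a profinite power is an ordinary power. -/
theorem exists_pr_pw (N : OpenNormalSubgroup G) (x : G) (a : Zhat) :
    ∃ k : ℕ, pr N (pw x a) = pr N (x ^ k) := by
  exact ⟨_, by rw [pow_pr_pw N x _ _ (pow_card N x), map_pow]⟩

/-- The closure of the cyclic group generated by `x` consists of profinite powers.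
Hint: take an ultrafilter `F` on the open normal subgroups refining the filter of all `Set.Iic N`;
put `a mod m :=` the `F`-limit of `k_N mod m` (finite type). -/
theorem exists_pw_of_pr {x y : G} (h : ∀ N : OpenNormalSubgroup G, ∃ k : ℕ, pr N y = pr N (x ^ k)) :
    ∃ a, y = pw x a := by
  choose k hk using h
  let F : Ultrafilter (OpenNormalSubgroup G) := Ultrafilter.of Filter.atBot
  have hF : (F : Filter (OpenNormalSubgroup G)) ≤ Filter.atBot := Ultrafilter.of_le _
  have h1 : ∀ m : ℕ+, ∃ r : ZMod m, ∀ᶠ N in (F : Filter (OpenNormalSubgroup G)),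
      (k N : ZMod m) = r := by
    intro m
    obtain ⟨r, hr⟩ := Ultrafilter.eq_pure_of_finite (F.map fun N => (k N : ZMod m))
    refine ⟨r, ?_⟩
    have h2 : ({r} : Set (ZMod m)) ∈ F.map fun N => (k N : ZMod m) := by
      rw [hr]
      exact Ultrafilter.mem_pure.2 rfl
    exact h2
  choose r hr using h1
  have h2 : r ∈ Zhat := by
    intro m n hmn
    obtain ⟨N, e1, e2⟩ := ((hr m).and (hr n)).exists
    rw [← e1, ← e2, map_natCast]
  refine ⟨⟨r, h2⟩, isPow_iff.1 (pow_isPow.2 fun N m _ hm => ?_)⟩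
  obtain ⟨M, e1, e2⟩ := ((hr ⟨m, NeZero.pos m⟩).and (hF (Filter.Iic_mem_atBot N))).exists
  have e3 : res m ⟨r, h2⟩ = (k M : ZMod m) := e1.symm
  rw [pr_mono e2 (hk M), e3, ZMod.val_natCast, map_pow, ← pow_eq_pow_mod _ hm]

theorem continuous_inv_aut (φ : MulAut G) (hc : Continuous φ) : Continuous (φ⁻¹ : MulAut G) := by
  exact Continuous.continuous_symm_of_equiv_compact_to_t2 (f := φ.toEquiv) hc

omit [IsTopologicalGroup G] [CompactSpace G] [TotallyDisconnectedSpace G] in
theorem continuous_pow_aut (φ : MulAut G) (hc : Continuous φ) (k : ℕ) :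
    Continuous (φ ^ k : MulAut G) := by
  induction k with
  | zero => exact continuous_id
  | succ k ih =>
    rw [pow_succ]
    exact ih.comp hc

omit [CompactSpace G] [TotallyDisconnectedSpace G] in
theorem continuous_conj_aut (g : G) : Continuous (MulAut.conj g : MulAut G) := by
  show Continuous fun y : G => g * y * g⁻¹
  fun_prop

end Pool.Agent.MP_1c2b6e_al
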