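import Mathlib

/-! Profinite integers and profinite powers. -/

namespace Pool.Agent.MP_1c2b6e_al

/-- The ring of profinite integers: compatible families of residues. -/
def Zhat : Subring (∀ n : ℕ+, ZMod n) where
  carrier := {f | ∀ (m n : ℕ+) (h : (m : ℕ) ∣ n), ZMod.castHom h (ZMod m) (f n) = f m}
  mul_mem' := fun ha hb m n h => by rw [Pi.mul_apply, map_mul, ha m n h, hb m n h]; rfl
  one_mem' := fun m n h => by rw [Pi.one_apply, map_one]; rfl
  add_mem' := fun ha hb m n h => by rw [Pi.add_apply, map_add, ha m n h, hb m n h]; rfl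
  zero_mem' := fun m n h => by rw [Pi.zero_apply, map_zero]; rfl
  neg_mem' := fun ha m n h => by rw [Pi.neg_apply, map_neg, ha m n h]; rfl

/-- The unit group of the profinite integers. -/
abbrev ZU : Type := Zhatˣ

/-- `y = x ^ a` for a profinite integer `a`: modulo every open normal subgroup containing `x ^ m`,
`y` is `x` to the power `a mod m`. -/
def IsPow {G : Type} [Group G] [TopologicalSpace G] (x : G) (a : Zhat) (y : G) : Prop :=
  ∀ (N : OpenNormalSubgroup G) (m : ℕ+), x ^ (m : ℕ) ∈ N → y⁻¹ * x ^ (a.1 m).val ∈ N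

end Pool.Agent.MP_1c2b6e_al
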